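import Pool.Agent.X156.PR.Orb

/-!
# Ranks of the fixed subgroups of a finitely generated abelian group
-/

set_option autoImplicit false
set_option linter.unusedSectionVars false

namespace Pool.Agent.X156.PR

open Module LinearMap nonZeroDivisors TensorProduct

variable {G : Type} [Group G] {A : Type} [AddCommGroup A] [DistribMulAction G A]

/-- the elements fixed by a subgroup -/
def fixA (K : Subgroup G) : Submodule ℤ A where
  carrier := {a | ∀ h ∈ K, h • a = a}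
  add_mem' := fun {a b} ha hb h hh => by rw [smul_add, ha h hh, hb h hh]
  zero_mem' := fun h _ => smul_zero h
  smul_mem' := fun c v hv h hh => by
    rw [smul_comm, hv h hh]

/-- the representation on the tensor product with the rational numbers -/
noncomputable def rat (G A : Type) [Group G] [AddCommGroup A] [DistribMulAction G A] :
    G →* ((ℚ ⊗[ℤ] A) →ₗ[ℚ] (ℚ ⊗[ℤ] A)) where
  toFun g := (DistribSMul.toAddMonoidHom A g).toIntLinearMap.baseChange ℚ
  map_one' := by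
    have : (DistribSMul.toAddMonoidHom A (1 : G)).toIntLinearMap = LinearMap.id := by
      apply LinearMap.ext
      intro a
      exact one_smul G a
    rw [this, LinearMap.baseChange_id]
    rfl
  map_mul' a b := by
    have : (DistribSMul.toAddMonoidHom A (a * b : G)).toIntLinearMap =
        (DistribSMul.toAddMonoidHom A a).toIntLinearMap ∘ₗ
          (DistribSMul.toAddMonoidHom A b).toIntLinearMap := by
      apply LinearMap.ext
      intro x
      exact mul_smul a b x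
    rw [this, LinearMap.baseChange_comp]
    rfl

theorem rat_tmul (g : G) (q : ℚ) (a : A) : rat G A g (q ⊗ₜ[ℤ] a) = q ⊗ₜ[ℤ] (g • a) := rfl

/-- the map from the fixed elements -/
noncomputable def inc (K : Subgroup G) : fixA (A := A) K →ₗ[ℤ] fixS (rat G A) K where
  toFun a := ⟨(1 : ℚ) ⊗ₜ[ℤ] (a : A), by
    intro h hh
    rw [rat_tmul, a.2 h hh]⟩
  map_add' a b := by
    apply Subtype.ext
    exact TensorProduct.tmul_add _ _ _
  map_smul' c a := by
    apply Subtype.ext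
    exact TensorProduct.tmul_smul c (1 : ℚ) (a : A)

theorem exists_tors {a b : A} (h : (1 : ℚ) ⊗ₜ[ℤ] a = (1 : ℚ) ⊗ₜ[ℤ] b) :
    ∃ c : ℤ, c ≠ 0 ∧ c • a = c • b := by
  have hl : IsLocalizedModule ℤ⁰ (TensorProduct.mk ℤ ℚ A 1) := inferInstance
  obtain ⟨c, hc⟩ := hl.exists_of_eq (x₁ := a) (x₂ := b) h
  exact ⟨c, nonZeroDivisors.coe_ne_zero c, hc⟩

theorem exists_den (v : ℚ ⊗[ℤ] A) : ∃ (n : ℤ) (a : A), n ≠ 0 ∧ n • v = (1 : ℚ) ⊗ₜ[ℤ] a := by
  have hl : IsLocalizedModule ℤ⁰ (TensorProduct.mk ℤ ℚ A 1) := inferInstance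
  obtain ⟨⟨a, c⟩, hc⟩ := IsLocalizedModule.surj ℤ⁰ (TensorProduct.mk ℤ ℚ A 1) v
  exact ⟨c, a, nonZeroDivisors.coe_ne_zero c, hc⟩

variable [Finite G]

theorem inc_loc (K : Subgroup G) : IsLocalizedModule ℤ⁰ (inc (A := A) K) := by
  classical
  refine ⟨?_, ?_, ?_⟩
  · intro c
    have hc : ((c : ℤ) : ℚ) ≠ 0 := by
      exact_mod_cast nonZeroDivisors.coe_ne_zero c
    rw [Module.End.isUnit_iff]
    constructor
    · intro x y hxy
      have h1 : (c : ℤ) • x = (c : ℤ) • y := hxy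
      rw [← Int.cast_smul_eq_zsmul ℚ, ← Int.cast_smul_eq_zsmul ℚ] at h1
      exact smul_right_injective _ hc h1
    · intro y
      refine ⟨(((c : ℤ) : ℚ))⁻¹ • y, ?_⟩
      change (c : ℤ) • ((((c : ℤ) : ℚ))⁻¹ • y) = y
      rw [← Int.cast_smul_eq_zsmul ℚ, smul_smul, mul_inv_cancel₀ hc, one_smul]
  · intro v
    obtain ⟨n, a, hn, ha⟩ := exists_den (v : ℚ ⊗[ℤ] A)
    have h1 : ∀ h : K, ∃ c : ℤ, c ≠ 0 ∧ c • ((h : G) • a) = c • a := by
      intro h
      apply exists_tors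
      rw [← rat_tmul (h : G) 1 a, ← ha, map_zsmul, v.2 h h.2]
    choose c hc0 hc using h1
    have : Fintype K := Fintype.ofFinite K
    have hC : (∏ h : K, c h) ≠ 0 := Finset.prod_ne_zero_iff.2 fun h _ => hc0 h
    have hfix : ∀ h ∈ K, h • ((∏ h : K, c h) • a) = (∏ h : K, c h) • a := by
      intro h hh
      rw [smul_comm, ← Finset.mul_prod_erase _ _ (Finset.mem_univ (⟨h, hh⟩ : K)), mul_comm,
        mul_smul, mul_smul]
      congr 1
      exact hc ⟨h, hh⟩
    refine ⟨⟨⟨(∏ h : K, c h) • a, hfix⟩, ⟨(∏ h : K, c h) * n,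
      mem_nonZeroDivisors_of_ne_zero (mul_ne_zero hC hn)⟩⟩, ?_⟩
    apply Subtype.ext
    change ((∏ h : K, c h) * n) • (v : ℚ ⊗[ℤ] A) = (1 : ℚ) ⊗ₜ[ℤ] ((∏ h : K, c h) • a)
    rw [mul_smul, ha, TensorProduct.tmul_smul]
  · intro a b hab
    have h1 : (1 : ℚ) ⊗ₜ[ℤ] (a : A) = (1 : ℚ) ⊗ₜ[ℤ] (b : A) := congrArg Subtype.val hab
    obtain ⟨c, hc0, hc⟩ := exists_tors h1
    exact ⟨⟨c, mem_nonZeroDivisors_of_ne_zero hc0⟩, Subtype.ext hc⟩

theorem finrank_fixA (K : Subgroup G) :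
    finrank ℤ (fixA (A := A) K) = finrank ℚ (fixS (rat G A) K) := by
  have := inc_loc (A := A) K
  rw [← IsLocalizedModule.finrank_eq ℤ⁰ (inc (A := A) K) le_rfl]
  exact (IsLocalization.finrank_eq (R := ℤ) ℚ ℤ⁰ le_rfl).symm

theorem finrank_rat : finrank ℤ A = finrank ℚ (ℚ ⊗[ℤ] A) := by
  rw [← IsLocalizedModule.finrank_eq ℤ⁰ (TensorProduct.mk ℤ ℚ A 1) le_rfl]
  exact (IsLocalization.finrank_eq (R := ℤ) ℚ ℤ⁰ le_rfl).symm

theorem parity_rank [Module.Finite ℤ A] (N : Subgroup G) [N.Normal]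
    (hN : Odd (Nat.card N)) {k : ℕ} (hk : N.index = 2 ^ (k + 1)) :
    (finrank ℤ A : ZMod 2) = ∑ K ∈ (Set.toFinite {K : Subgroup G | K.index = 2}).toFinset,
      (finrank ℤ (fixA (A := A) K) : ZMod 2) := by
  rw [finrank_rat, parity (rat G A) N hN hk]
  exact Finset.sum_congr rfl fun K _ => by rw [finrank_fixA]

end Pool.Agent.X156.PR
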