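import Pool.Agent.X156.PR.MW
import Pool.Agent.X156.PR.Rk

/-!
# The Galois action on the points of an elliptic curve
-/

set_option autoImplicit false

open scoped Classical

namespace Pool.Agent.X156.PR

open WeierstrassCurve Module

/-- the rank of the group of points -/
noncomputable def rank {F : Type} [Field F] (W : WeierstrassCurve F) : ℕ :=
  finrank ℤ W.toAffine.Point

/-- the group of points -/
def Grp {F : Type} [Field F] (W : WeierstrassCurve F) : Type := W.toAffine.Point

noncomputable instance {F : Type} [Field F] (W : WeierstrassCurve F) : AddCommGroup (Grp W) :=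
  inferInstanceAs (AddCommGroup W.toAffine.Point)

theorem rank_eq {F : Type} [Field F] (W : WeierstrassCurve F) : rank W = finrank ℤ (Grp W) := rfl

theorem Grp_finite {F : Type} [Field F] [NumberField F] (W : WeierstrassCurve F) (hW : W.Δ ≠ 0) :
    Module.Finite ℤ (Grp W) := Module.Finite.iff_addGroup_fg.2 (mw W hW)

section

variable {k : Type} [Field k] (W : WeierstrassCurve k)

/-- the map on points -/
noncomputable def mp {F F' : Type} [Field F] [Field F'] [Algebra k F] [Algebra k F']
    (f : F →ₐ[k] F') : Grp (W.baseChange F) →+ Grp (W.baseChange F') :=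
  Affine.Point.map (W' := W.toAffine) (S := k) f

theorem mp_id {F : Type} [Field F] [Algebra k F] (P : Grp (W.baseChange F)) :
    mp W (AlgHom.id k F) P = P := by
  rcases P with _ | _ <;> rfl

theorem mp_comp {F F' F'' : Type} [Field F] [Field F'] [Field F''] [Algebra k F] [Algebra k F']
    [Algebra k F''] (f : F →ₐ[k] F') (g : F' →ₐ[k] F'') (P : Grp (W.baseChange F)) :
    mp W g (mp W f P) = mp W (g.comp f) P :=
  Affine.Point.map_map (W' := W.toAffine) (S := k) f g P

theorem mp_inj {F F' : Type} [Field F] [Field F'] [Algebra k F] [Algebra k F']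
    (f : F →ₐ[k] F') : Function.Injective (mp W f) :=
  Affine.Point.map_injective (W' := W.toAffine) (S := k) f

/-- a point whose coordinates are in the image -/
theorem mp_some {F F' : Type} [Field F] [Field F'] [Algebra k F] [Algebra k F']
    (f : F →ₐ[k] F') (x y : F)
    (h : (W.baseChange F').toAffine.Nonsingular (f x) (f y)) :
    ∃ Q : Grp (W.baseChange F), mp W f Q = (Affine.Point.some _ _ h : Grp (W.baseChange F')) :=
  ⟨Affine.Point.some _ _ ((Affine.baseChange_nonsingular (W := W.toAffine) (S := k)
      (f := f) f.injective x y).1 h), rfl⟩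

variable (L : Type) [Field L] [Algebra k L]

noncomputable instance : DistribMulAction (L ≃ₐ[k] L) (Grp (W.baseChange L)) where
  smul g P := mp W (g : L →ₐ[k] L) P
  one_smul P := mp_id W P
  mul_smul g h P := (mp_comp W (h : L →ₐ[k] L) (g : L →ₐ[k] L) P).symm
  smul_zero _ := rfl
  smul_add g P Q := map_add (mp W (g : L →ₐ[k] L)) P Q

theorem smul_def (g : L ≃ₐ[k] L) (P : Grp (W.baseChange L)) :
    g • P = mp W (g : L →ₐ[k] L) P := rfl

/-- the points over the fixed field of a subgroup -/
noncomputable def toFix (K : Subgroup (L ≃ₐ[k] L)) :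
    Grp (W.baseChange (IntermediateField.fixedField K)) →+
      fixA (A := Grp (W.baseChange L)) K where
  toFun P := ⟨mp W (IntermediateField.fixedField K).val P, by
    intro h hh
    rw [smul_def, mp_comp]
    have : (h : L →ₐ[k] L).comp (IntermediateField.fixedField K).val =
        (IntermediateField.fixedField K).val := by
      apply AlgHom.ext
      intro x
      exact x.2 ⟨h, hh⟩
    rw [this]⟩
  map_zero' := rfl
  map_add' P Q := Subtype.ext (map_add (mp W (IntermediateField.fixedField K).val) P Q)

theorem toFix_bij (K : Subgroup (L ≃ₐ[k] L)) : Function.Bijective (toFix W L K) := by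
  constructor
  · intro P Q h
    exact mp_inj W _ (congrArg Subtype.val h)
  · rintro ⟨P, hP⟩
    rcases P with _ | ⟨x, y, hxy⟩
    · exact ⟨0, rfl⟩
    · have h1 : ∀ h ∈ K, h x = x ∧ h y = y := by
        intro h hh
        have := hP h hh
        exact Affine.Point.some.inj this
      have hx : x ∈ IntermediateField.fixedField K := fun h => (h1 h h.2).1
      have hy : y ∈ IntermediateField.fixedField K := fun h => (h1 h h.2).2
      obtain ⟨Q, hQ⟩ := mp_some W (IntermediateField.fixedField K).val ⟨x, hx⟩ ⟨y, hy⟩ hxy
      exact ⟨Q, Subtype.ext hQ⟩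

theorem rank_fix (K : Subgroup (L ≃ₐ[k] L)) :
    rank (W.baseChange (IntermediateField.fixedField K)) =
      finrank ℤ (fixA (A := Grp (W.baseChange L)) K) :=
  (LinearEquiv.ofBijective (toFix W L K).toIntLinearMap (toFix_bij W L K)).finrank_eq

end

end Pool.Agent.X156.PR
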