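import Pool.Agent.X156.PR.Sets

/-!
# Split primes of the ring of invariants of a subgroup
-/

set_option autoImplicit false
set_option linter.unusedSectionVars false

namespace Pool.Agent.X156.PR

open WeierstrassCurve Pointwise

variable {R A B : Type} [CommRing R] [CommRing A] [CommRing B] [Algebra R A] [Algebra A B]
  [Algebra R B] [IsScalarTower R A B] {Mod : Ideal R → WeierstrassCurve R}
  {G : Type} [Group G] [Finite G] [MulSemiringAction G B] [SMulCommClass G R B] (K : Subgroup G)
  [Algebra.IsInvariant A B K] [SMulCommClass K A B]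

theorem nm_under (w : Ideal B) : (nm Mod (w.under A)).map (algebraMap A B) = nm Mod w := by
  unfold nm
  rw [Ideal.under_under, WeierstrassCurve.map_map, ← IsScalarTower.algebraMap_eq]

omit [Algebra R A] [IsScalarTower R A B] [Algebra R B] [SMulCommClass G R B] in
/-- residues fixed by the decomposition group -/
theorem descent (w : Ideal B) [hw : w.IsMaximal] [hfin : Finite (B ⧸ w)] {t : B}
    (h : ∀ h ∈ K, h • w = w → h • t - t ∈ w) : ∃ a : A, t - algebraMap A B a ∈ w := by
  have hint : Algebra.IsIntegral A B := Algebra.IsInvariant.isIntegral A B K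
  have hP : (w.under A).IsMaximal := Ideal.IsMaximal.under A w
  let i1 : Field (A ⧸ w.under A) := Ideal.Quotient.field _
  let i2 : Field (B ⧸ w) := Ideal.Quotient.field _
  have hfix : ∀ σ : (B ⧸ w) ≃ₐ[A ⧸ w.under A] (B ⧸ w),
      σ (Ideal.Quotient.mk w t) = Ideal.Quotient.mk w t := by
    intro σ
    obtain ⟨g, rfl⟩ := Ideal.Quotient.stabilizerHom_surjective K (w.under A) w σ
    rw [Ideal.Quotient.stabilizerHom_apply]
    refine Ideal.Quotient.eq.2 ?_
    exact h (g : K) (g : K).2 g.2
  have hinj : Function.Injective (algebraMap (A ⧸ w.under A) (B ⧸ w)) :=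
    (algebraMap (A ⧸ w.under A) (B ⧸ w)).injective
  have : Finite (A ⧸ w.under A) := Finite.of_injective _ hinj
  obtain ⟨y, hy⟩ := (IsGalois.mem_range_algebraMap_iff_fixed (F := A ⧸ w.under A)
    (E := B ⧸ w) (Ideal.Quotient.mk w t)).2 hfix
  obtain ⟨a, rfl⟩ := Ideal.Quotient.mk_surjective y
  refine ⟨a, ?_⟩
  refine Ideal.Quotient.eq.1 ?_
  exact hy.symm

theorem Bad.under {w : Ideal B} (hw : Bad Mod w) (h0 : w.under A ≠ ⊥) :
    Bad Mod (w.under A) := by
  obtain ⟨hp, -, hD, hc⟩ := hw
  have := hp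
  refine ⟨inferInstance, h0, ?_, ?_⟩
  · rw [Ideal.mem_comap, ← map_Δ, nm_under]
    exact hD
  · rw [Ideal.mem_comap, ← map_c₄, nm_under]
    exact hc

theorem Bad.over {w : Ideal B} (hp : w.IsPrime) (h0 : w ≠ ⊥) (hw : Bad Mod (w.under A)) :
    Bad Mod w := by
  obtain ⟨-, -, hD, hc⟩ := hw
  refine ⟨hp, h0, ?_, ?_⟩
  · rw [Ideal.mem_comap, ← map_Δ, nm_under] at hD
    exact hD
  · rw [Ideal.mem_comap, ← map_c₄, nm_under] at hc
    exact hc

/-- **The orbits without exchange of slopes are the split primes of the invariants.** -/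
theorem card_noswap (hmax : ∀ w : Ideal B, w.IsPrime → w ≠ ⊥ → w.IsMaximal ∧ Finite (B ⧸ w))
    (hbot : ∀ w : Ideal B, w.IsPrime → w ≠ ⊥ → w.under A ≠ ⊥)
    (hover : ∀ P : Ideal A, P.IsPrime → P ≠ ⊥ → ∃ w : Ideal B, w.IsPrime ∧ w ≠ ⊥ ∧
      w.under A = P) :
    Nat.card {o : MulAction.orbitRel.Quotient K (XS Mod B) //
        ∃ x, (Quotient.mk _ x : MulAction.orbitRel.Quotient K (XS Mod B)) = o ∧
          NoSwap K pr sw x} = Nat.card (XS Mod A) := by
  -- the slope in `A`
  have key : ∀ x : XS Mod B, NoSwap K pr sw x →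
      Bad Mod (x.1.under A) ∧ ∃ a : A, slope (nm Mod (x.1.under A)) a ∈ x.1.under A := by
    rintro ⟨w, hw, t, ht⟩ hns
    refine ⟨hw.under (hbot w hw.1 hw.2.1), ?_⟩
    obtain ⟨h1, h2⟩ := hmax w hw.1 hw.2.1
    have hd : ∀ h ∈ K, h • w = w → h • t - t ∈ w := by
      intro h hh hhw
      set y : YS Mod B := ⟨(w, {s | s - t ∈ w}), hw, t, ht, rfl⟩ with hy
      have hpr : pr (h • y) = pr y := Subtype.ext hhw
      rcases fib y (h • y) hpr.symm with h3 | h3
      · have h4 : h • ({s | s - t ∈ w} : Set B) = {s | s - t ∈ w} :=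
          congrArg (fun z : YS Mod B => z.1.2) h3
        rw [smul_coset, hhw] at h4
        have h5 : h • t ∈ ({s | s - h • t ∈ w} : Set B) := by
          rw [Set.mem_ofPred_eq, sub_self]
          exact w.zero_mem
        rw [h4] at h5
        exact h5
      · exact absurd h3 (hns y rfl ⟨h, hh⟩)
    obtain ⟨a, ha⟩ := descent (A := A) K w hd
    refine ⟨a, ?_⟩
    rw [Ideal.mem_comap, ← slope_map, nm_under]
    have e : slope (nm Mod w) (algebraMap A B a) = slope (nm Mod w) t -
        (t - algebraMap A B a) * ((nm Mod w).c₄ * (t + algebraMap A B a + (nm Mod w).a₁)) := by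
      unfold slope
      ring
    rw [e]
    exact w.sub_mem ht (w.mul_mem_right _ ha)
  set f : {o : MulAction.orbitRel.Quotient K (XS Mod B) //
        ∃ x, (Quotient.mk _ x : MulAction.orbitRel.Quotient K (XS Mod B)) = o ∧
          NoSwap K pr sw x} → XS Mod A :=
    fun o => ⟨o.2.choose.1.under A, key _ o.2.choose_spec.2⟩ with hf
  refine Nat.card_congr (Equiv.ofBijective f ⟨?_, ?_⟩)
  · rintro o o' h
    apply Subtype.ext
    rw [← o.2.choose_spec.1, ← o'.2.choose_spec.1]
    have h1 : o.2.choose.1.under A = o'.2.choose.1.under A := congrArg Subtype.val h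
    have hp := o.2.choose.2.1.1
    have hp' := o'.2.choose.2.1.1
    obtain ⟨g, hg⟩ := Algebra.IsInvariant.exists_smul_of_under_eq A B K _ _ h1.symm
    apply Quotient.sound
    exact ⟨g, Subtype.ext hg.symm⟩
  · rintro ⟨P, hP, a, ha⟩
    obtain ⟨w, hwp, hw0, hwP⟩ := hover P hP.1 hP.2.1
    subst hwP
    have hbad : Bad Mod w := Bad.over hwp hw0 hP
    rw [Ideal.mem_comap, ← slope_map, nm_under] at ha
    set x : XS Mod B := ⟨w, hbad, algebraMap A B a, ha⟩ with hx
    have hns : NoSwap K (pr : YS Mod B → XS Mod B) sw x := by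
      intro y hy h hh
      set y0 : YS Mod B := ⟨(w, {s | s - algebraMap A B a ∈ w}), hbad, algebraMap A B a, ha, rfl⟩
        with hy0
      have hpy : pr y0 = pr y := hy.symm
      have hw1 : (h : G) • w = w := by
        have h1 : pr ((h : G) • y) = pr (sw y) := congrArg pr hh
        rw [pr_smul, pr_sw, hy] at h1
        exact congrArg Subtype.val h1
      have hfix0 : (h : G) • y0 = y0 := by
        apply Subtype.ext
        refine Prod.ext hw1 ?_
        change (h : G) • ({s | s - algebraMap A B a ∈ w} : Set B) = {s | s - algebraMap A B a ∈ w}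
        have h2 : (h : G) • algebraMap A B a = algebraMap A B a := smul_algebraMap h a
        rw [smul_coset, hw1, h2]
      have hfix : (h : G) • y = y := by
        rcases fib y0 y hpy with h3 | h3
        · rw [h3, hfix0]
        · rw [h3, ← sw_smul, hfix0]
      exact sw_ne y (hh.symm.trans hfix)
    set o : {o : MulAction.orbitRel.Quotient K (XS Mod B) //
        ∃ x, (Quotient.mk _ x : MulAction.orbitRel.Quotient K (XS Mod B)) = o ∧
          NoSwap K pr sw x} := ⟨Quotient.mk _ x, x, rfl, hns⟩ with ho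
    refine ⟨o, ?_⟩
    apply Subtype.ext
    change o.2.choose.1.under A = w.under A
    obtain ⟨g, hg⟩ := Quotient.exact o.2.choose_spec.1
    have hg' : (g : G) • w = o.2.choose.1 := congrArg Subtype.val hg
    rw [← hg']
    exact Ideal.under_smul A w (g : K)

/-- **The number of split primes of the invariants.** -/
theorem card_split [Finite (XS Mod B)]
    (hmax : ∀ w : Ideal B, w.IsPrime → w ≠ ⊥ → w.IsMaximal ∧ Finite (B ⧸ w))
    (hbot : ∀ w : Ideal B, w.IsPrime → w ≠ ⊥ → w.under A ≠ ⊥)
    (hover : ∀ P : Ideal A, P.IsPrime → P ≠ ⊥ → ∃ w : Ideal B, w.IsPrime ∧ w ≠ ⊥ ∧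
      w.under A = P) :
    Nat.card (MulAction.orbitRel.Quotient K (YS Mod B)) =
      Nat.card (MulAction.orbitRel.Quotient K (XS Mod B)) + Nat.card (XS Mod A) := by
  have := finite_YS (Mod := Mod) (B := B)
  rw [← card_noswap (A := A) K hmax hbot hover]
  exact card_cover (K := K) pr sw (fun h y => pr_smul (h : G) y) (fun h y => sw_smul (h : G) y)
    pr_surj pr_sw sw_ne fib

end Pool.Agent.X156.PR
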