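import Pool.Agent.X156.PR.Main

/-!
# The parity conjecture over Galois extensions of even degree: final form
-/

set_option autoImplicit false
set_option linter.unusedSectionVars false

namespace Pool.Agent.X156.PR

open WeierstrassCurve NumberField Module TensorProduct

section prod

variable {G : Type} [Group G] {V U : Type} [AddCommGroup V] [Module ℚ V] [AddCommGroup U]
  [Module ℚ U]

/-- the direct sum of two representations -/
def prodRep (ρ : G →* (V →ₗ[ℚ] V)) (σ : G →* (U →ₗ[ℚ] U)) : G →* ((V × U) →ₗ[ℚ] (V × U)) where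
  toFun g := (ρ g).prodMap (σ g)
  map_one' := by
    rw [map_one, map_one]
    rfl
  map_mul' a b := by
    rw [map_mul, map_mul]
    rfl

/-- fixed vectors of a direct sum -/
def fixProd (ρ : G →* (V →ₗ[ℚ] V)) (σ : G →* (U →ₗ[ℚ] U)) (K : Subgroup G) :
    fixS (prodRep ρ σ) K ≃ₗ[ℚ] (fixS ρ K × fixS σ K) where
  toFun x := (⟨x.1.1, fun h hh => congrArg Prod.fst (x.2 h hh)⟩,
    ⟨x.1.2, fun h hh => congrArg Prod.snd (x.2 h hh)⟩)
  invFun y := ⟨(y.1.1, y.2.1), fun h hh => Prod.ext (y.1.2 h hh) (y.2.2 h hh)⟩
  map_add' _ _ := rfl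
  map_smul' _ _ := rfl
  left_inv _ := rfl
  right_inv _ := rfl

variable [FiniteDimensional ℚ V] [FiniteDimensional ℚ U]

theorem finrank_fixProd (ρ : G →* (V →ₗ[ℚ] V)) (σ : G →* (U →ₗ[ℚ] U)) (K : Subgroup G) :
    finrank ℚ (fixS (prodRep ρ σ) K) = finrank ℚ (fixS ρ K) + finrank ℚ (fixS σ K) := by
  rw [(fixProd ρ σ K).finrank_eq, Module.finrank_prod]

end prod

section invol

variable {G : Type} [Group G] [Finite G] {V : Type} [AddCommGroup V] [Module ℚ V]
  [FiniteDimensional ℚ V]

/-- involutions which are products of squares -/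
theorem invol_parity (ρ : G →* (V →ₗ[ℚ] V)) {z : G} (hz : z * z = 1)
    (hsq : z ∈ Subgroup.closure (Set.range fun g : G => g ^ 2)) :
    (finrank ℚ V : ZMod 2) = (finrank ℚ (fixS ρ (Subgroup.zpowers z)) : ZMod 2) := by
  have hD : ∀ g : G, LinearMap.det (ρ (g ^ 2)) = 1 := by
    intro g
    have h1 : (LinearMap.det (ρ g)) ^ (orderOf g) = 1 := by
      rw [← map_pow, ← map_pow, pow_orderOf_eq_one, map_one, map_one]
    have h2 : |LinearMap.det (ρ g)| = 1 := by
      have h3 : |LinearMap.det (ρ g)| ^ (orderOf g) = 1 := by rw [← abs_pow, h1, abs_one]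
      exact (pow_eq_one_iff_of_nonneg (abs_nonneg _) (orderOf_pos g).ne').1 h3
    rw [map_pow, map_pow, ← sq_abs, h2, one_pow]
  have hd : LinearMap.det (ρ z) = 1 := by
    set D : G →* ℚ := (LinearMap.det : (V →ₗ[ℚ] V) →* ℚ).comp ρ with hDd
    have h : Subgroup.closure (Set.range fun g : G => g ^ 2) ≤ D.ker := by
      rw [Subgroup.closure_le]
      rintro _ ⟨g, rfl⟩
      exact hD g
    exact h hsq
  have h2 : ∀ v, ρ z (ρ z v) = v := by
    intro v
    have h3 : ρ (z * z) = 1 := by rw [hz, map_one]
    rw [map_mul] at h3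
    exact congrArg (fun f : V →ₗ[ℚ] V => f v) h3
  rw [invol_step (ρ z) h2 hd]
  have h4 : fx (ρ z) = fixS ρ (Subgroup.zpowers z) := by
    ext v
    rw [mem_fx]
    constructor
    · intro hv h hh
      obtain ⟨n, rfl⟩ := Subgroup.mem_zpowers_iff.1 hh
      rcases Int.even_or_odd n with ⟨m, hm⟩ | ⟨m, hm⟩
      · rw [hm, zpow_add, ← (Commute.refl z).mul_zpow, hz, one_zpow, map_one]
        rfl
      · rw [hm, two_mul, zpow_add, zpow_add, ← (Commute.refl z).mul_zpow, hz, one_zpow, one_mul,
          zpow_one]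
        exact hv
    · intro hv
      exact hv z (Subgroup.mem_zpowers z)
  rw [h4]

end invol

theorem neg_one_cast {a b : ℕ} (h : (a : ZMod 2) = (b : ZMod 2)) : (-1 : ℤ) ^ a = (-1) ^ b := by
  rcases Nat.even_or_odd b with hb | hb
  · have h1 : Even a := by
      rw [← ZMod.natCast_eq_zero_iff_even, h]
      exact (ZMod.natCast_eq_zero_iff_even).2 hb
    rw [h1.neg_one_pow, hb.neg_one_pow]
  · have h1 : Odd a := by
      rw [← ZMod.natCast_eq_one_iff_odd, h]
      exact (ZMod.natCast_eq_one_iff_odd).2 hb
    rw [h1.neg_one_pow, hb.neg_one_pow]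

section quads

variable (k L : Type) [Field k] [NumberField k] [Field L] [NumberField L] [Algebra k L]

theorem finite_quads : {F : IntermediateField k L | finrank k F = 2}.Finite := by
  have hfd : FiniteDimensional k L := Module.Finite.of_restrictScalars_finite ℚ k L
  have hfin : Finite (IntermediateField k L) :=
    (Field.exists_primitive_element_iff_finite_intermediateField k L).1
      ⟨inferInstance, Field.exists_primitive_element k L⟩
  exact Set.toFinite _

/-- the quadratic extensions of `k` in `L` -/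
noncomputable def quads : Finset (IntermediateField k L) := (finite_quads k L).toFinset

variable {k L}

theorem mem_quads {F : IntermediateField k L} : F ∈ quads k L ↔ finrank k F = 2 := by
  unfold quads
  rw [Set.Finite.mem_toFinset]
  exact Iff.rfl

end quads

section

variable {k L : Type} [Field k] [NumberField k] [Field L] [NumberField L] [Algebra k L]
  [IsGalois k L]

/-- **The representation which governs the parity conjecture.** -/
theorem governing (W : WeierstrassCurve k) (hW : W.Δ ≠ 0) (hs : Semistable W) :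
    ∃ (V : Type) (_ : AddCommGroup V) (_ : Module ℚ V) (_ : FiniteDimensional ℚ V)
      (ρ : (L ≃ₐ[k] L) →* (V →ₗ[ℚ] V)), ∀ H : Subgroup (L ≃ₐ[k] L),
      defect (W.baseChange (IntermediateField.fixedField H)) =
        (-1) ^ (finrank ℚ (fixS ρ H)) ∧ defect (W.baseChange L) = (-1) ^ (finrank ℚ V) := by
  have hfd : FiniteDimensional k L := Module.Finite.of_restrictScalars_finite ℚ k L
  obtain ⟨Mod, hS⟩ := exists_system hs
  have hf := finite_XS (F := L) hS hW
  have hf' := finite_YS (Mod := Mod) (B := 𝓞 L)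
  have hfg := Grp_finite (W.baseChange L) (base_ne hW)
  refine ⟨(ℚ ⊗[ℤ] Grp (W.baseChange L)) × ((InfinitePlace L → ℚ) ×
    ((XS Mod (𝓞 L) → ℚ) × (YS Mod (𝓞 L) → ℚ))), inferInstance, inferInstance, inferInstance,
    prodRep (rat (L ≃ₐ[k] L) (Grp (W.baseChange L))) (prodRep (perm _ (InfinitePlace L))
      (prodRep (perm _ (XS Mod (𝓞 L))) (perm _ (YS Mod (𝓞 L))))), fun H => ⟨?_, ?_⟩⟩
  swap
  · classical
    have i1 := Fintype.ofFinite (InfinitePlace L)
    have i2 := Fintype.ofFinite (XS Mod (𝓞 L))
    have i3 := Fintype.ofFinite (YS Mod (𝓞 L))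
    rw [Module.finrank_prod, Module.finrank_prod, Module.finrank_prod, Module.finrank_pi,
      Module.finrank_pi, Module.finrank_pi, ← finrank_rat,
      ← Nat.card_eq_fintype_card, ← Nat.card_eq_fintype_card, ← Nat.card_eq_fintype_card, defect_eq]
    apply neg_one_cast
    unfold ex
    rw [splits_eq hS, card_YS, rank_eq]
    push_cast
    have h7 : ∀ a b c : ZMod 2, a + b + c = a + (c + (b + 2 * b)) := by decide
    exact h7 _ _ _
  rw [finrank_fixProd, finrank_fixProd, finrank_fixProd, finrank_fix_perm, finrank_fix_perm,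
    finrank_fix_perm, ← finrank_fixA, defect_eq]
  apply neg_one_cast
  unfold ex
  rw [card_inf, rank_fix, splits_eq (F := IntermediateField.fixedField H) hS,
      card_split (A := 𝓞 (IntermediateField.fixedField H)) H hmax hbot hover]
  push_cast
  have h7 : ∀ a b c d : ZMod 2, a + b + c = a + (c + (d + (d + b))) := by decide
  exact h7 _ _ _ _

/-- **Involutions.** -/
theorem invol_defect (W : WeierstrassCurve k) (hW : W.Δ ≠ 0) (hs : Semistable W)
    (z : L ≃ₐ[k] L) (hz : z * z = 1)
    (hsq : z ∈ Subgroup.closure (Set.range fun g : L ≃ₐ[k] L => g ^ 2)) :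
    defect (W.baseChange L) =
      defect (W.baseChange (IntermediateField.fixedField (Subgroup.zpowers z))) := by
  have hfd : FiniteDimensional k L := Module.Finite.of_restrictScalars_finite ℚ k L
  obtain ⟨V, i1, i2, i3, ρ, h⟩ := governing (L := L) W hW hs
  obtain ⟨h1, h2⟩ := h (Subgroup.zpowers z)
  rw [h1, h2]
  exact neg_one_cast (invol_parity ρ hz hsq)

/-- **Galois groups with a normal subgroup of odd order and index a power of two.** -/
theorem quadratic (W : WeierstrassCurve k) (hW : W.Δ ≠ 0) (hs : Semistable W)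
    (N : Subgroup (L ≃ₐ[k] L)) (hNn : N.Normal) (hN : Odd (Nat.card N)) {n : ℕ}
    (hn : N.index = 2 ^ (n + 1)) :
    defect (W.baseChange L) =
      ∏ F ∈ quads k L, defect (W.baseChange F) := by
  have hfd : FiniteDimensional k L := Module.Finite.of_restrictScalars_finite ℚ k L
  have h := ex_sum (L := L) W hW hs N hN hn
  rw [← Nat.cast_sum] at h
  rw [defect_eq, neg_one_cast h, ← Finset.prod_pow_eq_pow_sum]
  refine Finset.prod_bij' (fun K _ => IntermediateField.fixedField K)
    (fun F _ => F.fixingSubgroup) ?_ ?_ ?_ ?_ ?_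
  · intro K hK
    rw [Set.Finite.mem_toFinset, Set.mem_ofPred_eq] at hK
    rw [mem_quads, IntermediateField.finrank_eq_fixingSubgroup_index,
      IntermediateField.fixingSubgroup_fixedField, hK]
  · intro F hF
    rw [mem_quads] at hF
    rw [Set.Finite.mem_toFinset, Set.mem_ofPred_eq, ← IntermediateField.finrank_eq_fixingSubgroup_index, hF]
  · intro K _
    exact IntermediateField.fixingSubgroup_fixedField K
  · intro F _
    exact IsGalois.fixedField_fixingSubgroup F
  · intro K _
    exact (defect_eq _).symm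

end

section base

variable {k F : Type} [Field k] [NumberField k] [Field F] [NumberField F] [Algebra k F]

theorem Semistable.base {W : WeierstrassCurve k} (hs : Semistable W) :
    Semistable (W.baseChange F) := by
  obtain ⟨Mod, hS⟩ := exists_system hs
  intro P hP h0
  obtain ⟨h1, h2⟩ := hS (P.under (𝓞 k)) inferInstance (hbot P hP h0)
  rcases h2 with h2 | ⟨h2, h3⟩
  · refine Or.inl ⟨_, h1.base, ?_⟩
    rw [map_Δ]
    exact h2
  · refine Or.inr ⟨_, h1.base, ?_, ?_⟩
    · rw [map_Δ]
      exact h2
    · rw [map_c₄]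
      exact h3

variable {L : Type} [Field L] [NumberField L] [Algebra k L] [IsGalois k L]

/-- **All Galois extensions of even degree.** -/
theorem sylow (W : WeierstrassCurve k) (hW : W.Δ ≠ 0) (hs : Semistable W)
    (he : Even (finrank k L)) (P : Sylow 2 (L ≃ₐ[k] L)) :
    defect (W.baseChange L) =
      ∏ F ∈ quads (IntermediateField.fixedField (P : Subgroup (L ≃ₐ[k] L))) L,
        defect ((W.baseChange (IntermediateField.fixedField (P : Subgroup (L ≃ₐ[k] L)))).baseChange
          F) := by
  have hfd : FiniteDimensional k L := Module.Finite.of_restrictScalars_finite ℚ k L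
  have hcard : Nat.card (L ≃ₐ[IntermediateField.fixedField (P : Subgroup (L ≃ₐ[k] L))] L) =
      Nat.card P := by
    rw [IsGalois.card_aut_eq_finrank, IntermediateField.finrank_fixedField_eq_card]
  obtain ⟨n, hn⟩ := (IsPGroup.iff_card).1 P.isPGroup'
  have hn0 : n ≠ 0 := by
    rintro rfl
    have h2 : 2 ∣ Nat.card (L ≃ₐ[k] L) := by
      rw [IsGalois.card_aut_eq_finrank]
      exact he.two_dvd
    have h3 := P.dvd_card_of_dvd_card h2
    rw [hn, pow_zero] at h3
    omega
  obtain ⟨m, rfl⟩ := Nat.exists_eq_succ_of_ne_zero hn0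
  have h1 := quadratic (L := L)
    (W.baseChange (IntermediateField.fixedField (P : Subgroup (L ≃ₐ[k] L)))) (base_ne hW) hs.base
    ⊥ inferInstance (n := m) (by rw [Subgroup.card_bot]; exact odd_one)
    (by rw [Subgroup.index_bot, hcard, hn])
  have h2 : (W.baseChange (IntermediateField.fixedField (P : Subgroup (L ≃ₐ[k] L)))).baseChange L =
      W.baseChange L := by
    unfold WeierstrassCurve.baseChange
    rw [WeierstrassCurve.map_map]
    congr 1
  rw [h2] at h1
  exact h1

end base

end Pool.Agent.X156.PR
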