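import Mathlib

/-!
# Good, multiplicative and split multiplicative reduction
-/

set_option autoImplicit false

namespace Pool.Agent.X156.PR

open WeierstrassCurve NumberField IsDedekindDomain

/-- `M` is an integral Weierstrass equation of the curve `W` over the number field `F` -/
def IsModel {F : Type} [Field F] (W : WeierstrassCurve F) (M : WeierstrassCurve (𝓞 F)) : Prop :=
  ∃ C : VariableChange F, C • W = M.map (algebraMap (𝓞 F) F)

/-- The polynomial of the slopes of the tangents at the node: the second order expansion of the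
equation at the node `(x₀, y₀)` is `(Y - y₀)² + a₁ (X - x₀) (Y - y₀) - (3 x₀ + a₂) (X - x₀)²`, where
`x₀ = (18 b₆ - b₂ b₄) / c₄`; the polynomial is multiplied with `c₄`. -/
def slope {R : Type} [CommRing R] (M : WeierstrassCurve R) (t : R) : R :=
  M.c₄ * (t ^ 2 + M.a₁ * t - M.a₂) - 3 * (18 * M.b₆ - M.b₂ * M.b₄)

variable {F : Type} [Field F]

/-- good reduction at the prime `P` -/
def GoodAt (W : WeierstrassCurve F) (P : Ideal (𝓞 F)) : Prop :=
  ∃ M, IsModel W M ∧ M.Δ ∉ P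

/-- multiplicative reduction at the prime `P` -/
def MultAt (W : WeierstrassCurve F) (P : Ideal (𝓞 F)) : Prop :=
  ∃ M, IsModel W M ∧ M.Δ ∈ P ∧ M.c₄ ∉ P

/-- split multiplicative reduction at the prime `P`: the slopes of the tangents at the node are in
the residue field -/
def SplitAt (W : WeierstrassCurve F) (P : Ideal (𝓞 F)) : Prop :=
  ∃ M, IsModel W M ∧ M.Δ ∈ P ∧ M.c₄ ∉ P ∧ ∃ t : 𝓞 F, slope M t ∈ P

/-- semistable elliptic curves -/
def Semistable (W : WeierstrassCurve F) : Prop :=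
  ∀ P : Ideal (𝓞 F), P.IsPrime → P ≠ ⊥ → GoodAt W P ∨ MultAt W P

theorem slope_map {R S : Type} [CommRing R] [CommRing S] (f : R →+* S) (M : WeierstrassCurve R)
    (t : R) : slope (M.map f) (f t) = f (slope M t) := by
  unfold slope
  simp only [map_c₄, map_a₁, map_a₂, map_b₂, map_b₄, map_b₆, map_mul, map_sub, map_add, map_pow,
    map_ofNat]

/-- the slopes under a change of coordinates -/
theorem slope_change {R : Type} [CommRing R] (M : WeierstrassCurve R) (C : VariableChange R)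
    (t : R) : slope (C • M) (C.u⁻¹ * (t - C.s)) = C.u⁻¹ ^ 6 * slope M t := by
  unfold slope
  rw [variableChange_c₄, variableChange_a₁, variableChange_a₂, variableChange_b₂,
    variableChange_b₄, variableChange_b₆, WeierstrassCurve.c₄]
  ring

section val

variable {Γ : Type} [LinearOrderedCommGroupWithZero Γ] (v : Valuation F Γ)

theorem val_le (a b : F) (ha : v a ≤ 1) (hb : v b ≤ 1) : v (a + b) ≤ 1 :=
  (v.map_add a b).trans (max_le ha hb)

theorem val_sub (a b : F) (ha : v a ≤ 1) (hb : v b ≤ 1) : v (a - b) ≤ 1 :=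
  (v.map_sub a b).trans (max_le ha hb)

theorem val_mul (a b : F) (ha : v a ≤ 1) (hb : v b ≤ 1) : v (a * b) ≤ 1 := by
  rw [map_mul]
  exact mul_le_one' ha hb

theorem val_pow (a : F) (ha : v a ≤ 1) (n : ℕ) : v (a ^ n) ≤ 1 := by
  rw [map_pow]
  exact pow_le_one' ha n

/-- the valuation ring is integrally closed (monic equations of degree four) -/
theorem val_root4 (x c d e : F) (hc : v c ≤ 1) (hd : v d ≤ 1) (he : v e ≤ 1)
    (h : x ^ 4 = c * x ^ 2 + d * x + e) : v x ≤ 1 := by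
  by_contra hx
  rw [not_le] at hx
  have h0 : (0 : Γ) < v x := lt_trans zero_lt_one hx
  have h1 : v x ≤ v x ^ 2 := by
    rw [pow_two]
    exact le_mul_of_one_le_left' hx.le
  have h2 : v (c * x ^ 2 + d * x + e) ≤ v x ^ 2 := by
    refine (v.map_add _ _).trans (max_le ((v.map_add _ _).trans (max_le ?_ ?_)) ?_)
    · rw [map_mul, map_pow]
      exact mul_le_of_le_one_left' hc
    · rw [map_mul]
      exact (mul_le_of_le_one_left' hd).trans h1
    · exact he.trans (hx.le.trans h1)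
  rw [← h, map_pow] at h2
  have h3 : v x ^ 2 < v x ^ 4 := pow_lt_pow_right₀ hx (by norm_num)
  exact absurd h2 (not_le.2 h3)

/-- the valuation ring is integrally closed (monic equations of degree two) -/
theorem val_root2 (x c d : F) (hc : v c ≤ 1) (hd : v d ≤ 1)
    (h : x ^ 2 = c * x + d) : v x ≤ 1 := by
  by_contra hx
  rw [not_le] at hx
  have h2 : v (c * x + d) ≤ v x := by
    refine (v.map_add _ _).trans (max_le ?_ ?_)
    · rw [map_mul]
      exact mul_le_of_le_one_left' hc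
    · exact hd.trans hx.le
  rw [← h, map_pow] at h2
  have h3 : v x ^ 1 < v x ^ 2 := pow_lt_pow_right₀ hx (by norm_num)
  rw [pow_one] at h3
  exact absurd h2 (not_le.2 h3)

/-- all coefficients are integral -/
def Int5 (W : WeierstrassCurve F) : Prop :=
  v W.a₁ ≤ 1 ∧ v W.a₂ ≤ 1 ∧ v W.a₃ ≤ 1 ∧ v W.a₄ ≤ 1 ∧ v W.a₆ ≤ 1

theorem val_nat (n : ℕ) : v (n : F) ≤ 1 := by
  induction n with
  | zero => rw [Nat.cast_zero, map_zero]; exact zero_le_one
  | succ n ih =>
    rw [Nat.cast_succ]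
    exact val_le v _ _ ih (by rw [map_one])

theorem val_ofNat (n : ℕ) [n.AtLeastTwo] : v (OfNat.ofNat n : F) ≤ 1 := by
  have := val_nat v n
  rwa [← Nat.cast_ofNat (R := F)]

variable {v}

theorem b2_int {W : WeierstrassCurve F} (h : Int5 v W) : v W.b₂ ≤ 1 := by
  rw [WeierstrassCurve.b₂]
  exact val_le v _ _ (val_pow v _ h.1 2) (val_mul v _ _ (val_ofNat v 4) h.2.1)

theorem b4_int {W : WeierstrassCurve F} (h : Int5 v W) : v W.b₄ ≤ 1 := by
  rw [WeierstrassCurve.b₄]
  exact val_le v _ _ (val_mul v _ _ (val_ofNat v 2) h.2.2.2.1) (val_mul v _ _ h.1 h.2.2.1)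

theorem b6_int {W : WeierstrassCurve F} (h : Int5 v W) : v W.b₆ ≤ 1 := by
  rw [WeierstrassCurve.b₆]
  exact val_le v _ _ (val_pow v _ h.2.2.1 2) (val_mul v _ _ (val_ofNat v 4) h.2.2.2.2)

theorem b8_int {W : WeierstrassCurve F} (h : Int5 v W) : v W.b₈ ≤ 1 := by
  obtain ⟨h1, h2, h3, h4, h6⟩ := h
  rw [WeierstrassCurve.b₈]
  refine val_sub v _ _ (val_le v _ _ (val_sub v _ _ (val_le v _ _ ?_ ?_) ?_) ?_) ?_
  · exact val_mul v _ _ (val_pow v _ h1 2) h6
  · exact val_mul v _ _ (val_mul v _ _ (val_ofNat v 4) h2) h6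
  · exact val_mul v _ _ (val_mul v _ _ h1 h3) h4
  · exact val_mul v _ _ h2 (val_pow v _ h3 2)
  · exact val_pow v _ h4 2

theorem c4_int {W : WeierstrassCurve F} (h : Int5 v W) : v W.c₄ ≤ 1 := by
  rw [WeierstrassCurve.c₄]
  exact val_sub v _ _ (val_pow v _ (b2_int h) 2) (val_mul v _ _ (val_ofNat v 24) (b4_int h))

theorem u_unit {W : WeierstrassCurve F} (C : VariableChange F) (h1 : v W.c₄ = 1)
    (h2 : v (C • W).c₄ = 1) : v (C.u : F) = 1 := by
  rw [variableChange_c₄, map_mul, h1, mul_one, map_pow] at h2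
  have h3 : v ((C.u⁻¹ : Fˣ) : F) = 1 := by
    rcases lt_trichotomy (v ((C.u⁻¹ : Fˣ) : F)) 1 with h | h | h
    · exact absurd h2 (pow_lt_one₀ zero_le h (by norm_num)).ne
    · exact h
    · exact absurd h2 (one_lt_pow₀ h (by norm_num)).ne'
  rw [Units.val_inv_eq_inv_val, map_inv₀, inv_eq_one] at h3
  exact h3

theorem rs_int {W : WeierstrassCurve F} (C : VariableChange F) (h : Int5 v W)
    (h' : Int5 v (C • W)) (hu : v (C.u : F) = 1) : v C.s ≤ 1 := by
  have hue : (C.u : F) * ((C.u⁻¹ : Fˣ) : F) = 1 := by simp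
  have e6 : (C.u : F) ^ 6 * (C • W).b₆ =
      W.b₆ + 2 * C.r * W.b₄ + C.r ^ 2 * W.b₂ + 4 * C.r ^ 3 := by
    rw [variableChange_b₆, ← mul_assoc, ← mul_pow, hue, one_pow, one_mul]
  have e8 : (C.u : F) ^ 8 * (C • W).b₈ =
      W.b₈ + 3 * C.r * W.b₆ + 3 * C.r ^ 2 * W.b₄ + C.r ^ 3 * W.b₂ + 3 * C.r ^ 4 := by
    rw [variableChange_b₈, ← mul_assoc, ← mul_pow, hue, one_pow, one_mul]
  have e2 : (C.u : F) ^ 2 * (C • W).a₂ =
      W.a₂ - C.s * W.a₁ + 3 * C.r - C.s ^ 2 := by
    rw [variableChange_a₂, ← mul_assoc, ← mul_pow, hue, one_pow, one_mul]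
  have hu' : v (C.u : F) ≤ 1 := hu.le
  have hr : v C.r ≤ 1 := by
    refine val_root4 v C.r W.b₄ (2 * W.b₆ + (C.u : F) ^ 6 * (C • W).b₆)
      (W.b₈ - (C.u : F) ^ 8 * (C • W).b₈) (b4_int h) ?_ ?_ ?_
    · exact val_le v _ _ (val_mul v _ _ (val_ofNat v 2) (b6_int h))
        (val_mul v _ _ (val_pow v _ hu' 6) (b6_int h'))
    · exact val_sub v _ _ (b8_int h) (val_mul v _ _ (val_pow v _ hu' 8) (b8_int h'))
    · linear_combination e8 - C.r * e6
  refine val_root2 v C.s (-W.a₁) (W.a₂ + 3 * C.r - (C.u : F) ^ 2 * (C • W).a₂) ?_ ?_ ?_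
  · rw [Valuation.map_neg]
    exact h.1
  · exact val_sub v _ _ (val_le v _ _ h.2.1 (val_mul v _ _ (val_ofNat v 3) hr))
      (val_mul v _ _ (val_pow v _ hu' 2) h'.2.1)
  · linear_combination e2

end val

section prime

variable [NumberField F] (P : HeightOneSpectrum (𝓞 F))

theorem int5_map (M : WeierstrassCurve (𝓞 F)) :
    Int5 (P.valuation F) (M.map (algebraMap (𝓞 F) F)) :=
  ⟨P.valuation_le_one _, P.valuation_le_one _, P.valuation_le_one _, P.valuation_le_one _,
    P.valuation_le_one _⟩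

theorem exists_change {W : WeierstrassCurve F} {M M' : WeierstrassCurve (𝓞 F)}
    (h : IsModel W M) (h' : IsModel W M') : ∃ C : VariableChange F,
      C • (M.map (algebraMap (𝓞 F) F)) = M'.map (algebraMap (𝓞 F) F) := by
  obtain ⟨C, hC⟩ := h
  obtain ⟨C', hC'⟩ := h'
  refine ⟨C' * C⁻¹, ?_⟩
  rw [← hC, mul_smul, inv_smul_smul, hC']

theorem val_c4 {M : WeierstrassCurve (𝓞 F)} (h : M.c₄ ∉ P.asIdeal) :
    P.valuation F (M.map (algebraMap (𝓞 F) F)).c₄ = 1 := by
  rw [map_c₄]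
  exact P.valuation_eq_one_iff_notMem.2 h

/-- **The slopes do not depend on the equation.** -/
theorem slope_indep {W : WeierstrassCurve F} {M M' : WeierstrassCurve (𝓞 F)}
    (h : IsModel W M) (h' : IsModel W M') (hc : M.c₄ ∉ P.asIdeal) (hc' : M'.c₄ ∉ P.asIdeal)
    {t : 𝓞 F} (ht : slope M t ∈ P.asIdeal) : ∃ t' : 𝓞 F, slope M' t' ∈ P.asIdeal := by
  obtain ⟨C, hC⟩ := exists_change h h'
  have h1 := val_c4 P hc
  have h2 := val_c4 P hc'
  rw [← hC] at h2
  have hu := u_unit C h1 h2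
  have hs := rs_int C (int5_map P M) (by rw [hC]; exact int5_map P M') hu
  have hui : P.valuation F ((C.u⁻¹ : Fˣ) : F) = 1 := by
    rw [Units.val_inv_eq_inv_val, map_inv₀, hu, inv_one]
  set y : F := ((C.u⁻¹ : Fˣ) : F) * (algebraMap (𝓞 F) F t - C.s) with hy
  have hyi : P.valuation F y ≤ 1 :=
    val_mul _ _ _ hui.le (val_sub _ _ _ (P.valuation_le_one t) hs)
  obtain ⟨a, ha⟩ := P.exists_valuation_sub_lt_of_integer hyi 1
  refine ⟨a, ?_⟩
  rw [Units.val_one] at ha
  have h3 : slope (M'.map (algebraMap (𝓞 F) F)) y =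
      ((C.u⁻¹ : Fˣ) : F) ^ 6 * algebraMap (𝓞 F) F (slope M t) := by
    rw [← hC, hy, slope_change, slope_map]
  have h4 : P.valuation F (slope (M'.map (algebraMap (𝓞 F) F)) y) < 1 := by
    rw [h3, map_mul, map_pow, hui, one_pow, one_mul]
    exact (P.valuation_lt_one_iff_mem _).2 ht
  have h5 : slope (M'.map (algebraMap (𝓞 F) F)) (algebraMap (𝓞 F) F a) =
      slope (M'.map (algebraMap (𝓞 F) F)) y + (algebraMap (𝓞 F) F a - y) *
        ((M'.map (algebraMap (𝓞 F) F)).c₄ *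
          (algebraMap (𝓞 F) F a + y + (M'.map (algebraMap (𝓞 F) F)).a₁)) := by
    unfold slope
    ring
  have h6 : P.valuation F ((M'.map (algebraMap (𝓞 F) F)).c₄ *
          (algebraMap (𝓞 F) F a + y + (M'.map (algebraMap (𝓞 F) F)).a₁)) ≤ 1 :=
    val_mul _ _ _ (c4_int (int5_map P M'))
      (val_le _ _ _ (val_le _ _ _ (P.valuation_le_one a) hyi) (int5_map P M').1)
  have h7 : P.valuation F (slope (M'.map (algebraMap (𝓞 F) F)) (algebraMap (𝓞 F) F a)) < 1 := by
    rw [h5]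
    refine (Valuation.map_add _ _ _).trans_lt (max_lt h4 ?_)
    rw [map_mul]
    exact mul_lt_one_of_lt_of_le ha h6
  rw [slope_map] at h7
  exact (P.valuation_lt_one_iff_mem _).1 h7

/-- good reduction excludes multiplicative reduction -/
theorem good_not_mult {W : WeierstrassCurve F} {M M' : WeierstrassCurve (𝓞 F)}
    (h : IsModel W M) (h' : IsModel W M') (hg : M.Δ ∉ P.asIdeal) (hd : M'.Δ ∈ P.asIdeal)
    (hc' : M'.c₄ ∉ P.asIdeal) : False := by
  obtain ⟨C, hC⟩ := exists_change h h'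
  have h1 : P.valuation F (M.map (algebraMap (𝓞 F) F)).Δ = 1 := by
    rw [map_Δ]
    exact P.valuation_eq_one_iff_notMem.2 hg
  have h2 : P.valuation F (M'.map (algebraMap (𝓞 F) F)).Δ < 1 := by
    rw [map_Δ]
    exact (P.valuation_lt_one_iff_mem _).2 hd
  have h3 := val_c4 P hc'
  have h4 := c4_int (int5_map P M)
  rw [← hC, variableChange_Δ, map_mul, h1, mul_one, map_pow] at h2
  rw [← hC, variableChange_c₄, map_mul, map_pow] at h3
  have h5 : P.valuation F ((C.u⁻¹ : Fˣ) : F) < 1 := by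
    by_contra hcon
    rw [not_lt] at hcon
    exact absurd h2 (not_lt.2 (one_le_pow₀ hcon))
  have h6 : P.valuation F ((C.u⁻¹ : Fˣ) : F) ^ 4 < 1 := pow_lt_one₀ zero_le h5 (by norm_num)
  exact absurd h3 (mul_lt_one_of_lt_of_le h6 h4).ne

end prime

end Pool.Agent.X156.PR
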