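import Mathlib
import Pool.Agent.Y355.G.Tr
import Pool.Agent.H64R2.DD_MWK

/-!
# The Mordell-Weil theorem over number fields for all Weierstrass equations
-/

set_option autoImplicit false

open scoped Classical

namespace Pool.Agent.X156.PR

open WeierstrassCurve Polynomial

/-- the short model -/
def short {K : Type} [Field K] (W : WeierstrassCurve K) : WeierstrassCurve K :=
  ⟨0, W.b₂, 0, 8 * W.b₄, 16 * W.b₆⟩

theorem isShort {K : Type} [Field K] [CharZero K] (W : WeierstrassCurve K) :
    Pool.Agent.Y355.G.IsSh W.toAffine (short W).toAffine := by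
  refine ⟨rfl, ?_, rfl, ?_, ?_, two_ne_zero⟩
  · show W.b₂ = _
    rw [WeierstrassCurve.b₂]
  · show 8 * W.b₄ = _
    rw [WeierstrassCurve.b₄]
  · show 16 * W.b₆ = _
    rw [WeierstrassCurve.b₆]

/-- **The Mordell-Weil theorem.** -/
theorem mw {K : Type} [Field K] [NumberField K] (W : WeierstrassCurve K) (hW : W.Δ ≠ 0) :
    AddGroup.FG W.toAffine.Point := by
  let P : Cubic K := ⟨1, W.b₂, 8 * W.b₄, 16 * W.b₆⟩
  let L : Type := P.toPoly.SplittingField
  have : NumberField L := NumberField.of_module_finite K L
  have ha : P.a ≠ 0 := one_ne_zero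
  have hsp : Splits (P.toPoly.map (algebraMap K L)) := SplittingField.splits P.toPoly
  obtain ⟨x, y, z, h3⟩ := (Cubic.splits_iff_roots_eq_three ha).1 hsp
  have hdisc : P.discr ≠ 0 := by
    have h : P.discr = 256 * W.Δ := by
      simp only [Cubic.discr, P, WeierstrassCurve.Δ, WeierstrassCurve.b₂, WeierstrassCurve.b₄,
        WeierstrassCurve.b₆, WeierstrassCurve.b₈]
      ring
    rw [h]
    exact mul_ne_zero (by norm_num) hW
  obtain ⟨hxy, hxz, hyz⟩ := (Cubic.discr_ne_zero_iff_roots_ne ha h3).1 hdisc
  have hb := Cubic.b_eq_three_roots ha h3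
  have hc := Cubic.c_eq_three_roots ha h3
  have hd := Cubic.d_eq_three_roots ha h3
  simp only [P, map_one, one_mul, map_neg, map_ofNat, map_mul] at hb hc hd
  have hK : AddGroup.FG (Pool.Agent.H437R2.Man.MW.crv (-x) (-y) (-z)).toAffine.Point :=
    Pool.Agent.H437R2.Man.MW.pt_fg (fun h => hxy (neg_injective h)) (fun h => hxz (neg_injective h))
      (fun h => hyz (neg_injective h))
  have heq : (Pool.Agent.H437R2.Man.MW.crv (-x) (-y) (-z)).toAffine =
      ((short W).baseChange L).toAffine := by
    apply WeierstrassCurve.ext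
    · change (0 : L) = algebraMap K L 0
      rw [map_zero]
    · change -x + -y + -z = algebraMap K L W.b₂
      linear_combination -hb
    · change (0 : L) = algebraMap K L 0
      rw [map_zero]
    · change -x * -y + -x * -z + -y * -z = algebraMap K L (8 * W.b₄)
      rw [map_mul, map_ofNat]
      linear_combination -hc
    · change -x * -y * -z = algebraMap K L (16 * W.b₆)
      rw [map_mul, map_ofNat]
      linear_combination -hd
  have hK' : AddGroup.FG ((short W).baseChange L).toAffine.Point :=
    Pool.Agent.H64R2.DDMWK.fg_of_eq heq hK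
  have hinj := WeierstrassCurve.Affine.Point.map_injective (W' := (short W).toAffine)
    (Algebra.ofId K L)
  have hS : AddGroup.FG ((short W).baseChange K).toAffine.Point :=
    Pool.Agent.H64R2.DDMWK.fg_of_inj _ hinj hK'
  have hS' : AddGroup.FG (short W).toAffine.Point := by
    refine Pool.Agent.H64R2.DDMWK.fg_of_eq ?_ hS
    apply WeierstrassCurve.ext <;> rfl
  refine Pool.Agent.H64R2.DDMWK.fg_of_inj (A := W.toAffine.Point)
    { toFun := Pool.Agent.Y355.G.tr (isShort W), map_zero' := rfl,
      map_add' := fun P Q => Pool.Agent.Y355.G.tr_add (isShort W) P Q } ?_ hS'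
  intro P Q h
  exact Pool.Agent.Y355.G.tr_inj (isShort W) h

end Pool.Agent.X156.PR
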