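import Pool.Agent.X156.PR.Nf

/-!
# The parity conjecture over Galois extensions of even degree
-/

set_option autoImplicit false
set_option linter.unusedSectionVars false

namespace Pool.Agent.X156.PR

open WeierstrassCurve NumberField Module

/-- the root number of a semistable elliptic curve -/
noncomputable def rootNumber {F : Type} [Field F] [NumberField F] (W : WeierstrassCurve F) : ℤ :=
  (-1) ^ (splits W + Nat.card (InfinitePlace F))

/-- the product of the two signs of the parity conjecture -/
noncomputable def defect {F : Type} [Field F] [NumberField F] (W : WeierstrassCurve F) : ℤ :=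
  (-1) ^ (rank W) * rootNumber W

section

variable {k L : Type} [Field k] [NumberField k] [Field L] [NumberField L] [Algebra k L]
  [IsGalois k L]

theorem card_inf (K : Subgroup (L ≃ₐ[k] L)) :
    Nat.card (InfinitePlace (IntermediateField.fixedField K)) =
      Nat.card (MulAction.orbitRel.Quotient K (InfinitePlace L)) := by
  have hfd : FiniteDimensional k L := Module.Finite.of_restrictScalars_finite ℚ k L
  rw [← Nat.card_congr (InfinitePlace.orbitRelEquiv (k := IntermediateField.fixedField K)
    (K := L))]
  refine Nat.card_congr (Quotient.congr (Equiv.refl _) fun x y => ?_)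
  constructor
  · rintro ⟨σ, hσ⟩
    have hmem : σ.restrictScalars k ∈ K := by
      have h1 : σ.restrictScalars k ∈
          IntermediateField.fixingSubgroup (IntermediateField.fixedField K) := by
        rw [IntermediateField.mem_fixingSubgroup_iff]
        intro z hz
        exact σ.commutes ⟨z, hz⟩
      rwa [IntermediateField.fixingSubgroup_fixedField] at h1
    refine ⟨⟨σ.restrictScalars k, hmem⟩, ?_⟩
    rw [← hσ]
    apply InfinitePlace.ext
    intro z
    rfl
  · rintro ⟨⟨h, hh⟩, hy⟩
    have hy' : h • y = x := hy
    refine ⟨AlgEquiv.ofRingEquiv (f := h.toRingEquiv) (fun z =>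
      (IntermediateField.mem_fixedField_iff _ _).1 z.2 h hh), ?_⟩
    rw [← hy']
    apply InfinitePlace.ext
    intro z
    rfl

/-- the exponent -/
noncomputable def ex {F : Type} [Field F] [NumberField F] (W : WeierstrassCurve F) : ℕ :=
  rank W + splits W + Nat.card (InfinitePlace F)

theorem defect_eq {F : Type} [Field F] [NumberField F] (W : WeierstrassCurve F) :
    defect W = (-1) ^ (ex W) := by
  unfold defect rootNumber ex
  rw [← pow_add]
  congr 1
  ring

theorem base_ne {F F' : Type} [Field F] [Field F'] [Algebra F F'] {W : WeierstrassCurve F}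
    (hW : W.Δ ≠ 0) : (W.baseChange F').Δ ≠ 0 := by
  rw [WeierstrassCurve.baseChange, map_Δ]
  exact (map_ne_zero _).2 hW

theorem ex_sum (W : WeierstrassCurve k) (hW : W.Δ ≠ 0) (hs : Semistable W)
    (N : Subgroup (L ≃ₐ[k] L)) [N.Normal] (hN : Odd (Nat.card N)) {n : ℕ}
    (hn : N.index = 2 ^ (n + 1)) :
    (ex (W.baseChange L) : ZMod 2) =
      ∑ K ∈ (Set.toFinite {K : Subgroup (L ≃ₐ[k] L) | K.index = 2}).toFinset,
        (ex (W.baseChange (IntermediateField.fixedField K)) : ZMod 2) := by
  have hfd : FiniteDimensional k L := Module.Finite.of_restrictScalars_finite ℚ k L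
  obtain ⟨Mod, hS⟩ := exists_system hs
  have hf := finite_XS (F := L) hS hW
  have hf' := finite_YS (Mod := Mod) (B := 𝓞 L)
  have hfg := Grp_finite (W.baseChange L) (base_ne hW)
  have h1 := parity_rank (A := Grp (W.baseChange L)) N hN hn
  have h2 := parity_perm (InfinitePlace L) N hN hn
  have h3 := parity_perm (XS Mod (𝓞 L)) N hN hn
  have h4 := parity_perm (YS Mod (𝓞 L)) N hN hn
  have h5 : (splits (W.baseChange L) : ZMod 2) =
      ∑ K ∈ (Set.toFinite {K : Subgroup (L ≃ₐ[k] L) | K.index = 2}).toFinset,
        (splits (W.baseChange (IntermediateField.fixedField K)) : ZMod 2) := by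
    have h6 : (Nat.card (YS Mod (𝓞 L)) : ZMod 2) = 0 := by
      rw [card_YS, Nat.cast_mul]
      have : ((2 : ℕ) : ZMod 2) = 0 := by decide
      rw [this, zero_mul]
    rw [splits_eq hS, ← zero_add (Nat.card (XS Mod (𝓞 L)) : ZMod 2), ← h6, h3, h4,
      ← Finset.sum_add_distrib]
    refine Finset.sum_congr rfl fun K _ => ?_
    rw [splits_eq (F := IntermediateField.fixedField K) hS,
      card_split (A := 𝓞 (IntermediateField.fixedField K)) K hmax hbot hover]
    push_cast
    have h7 : ∀ a b : ZMod 2, a + b + a = b := by decide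
    exact h7 _ _
  unfold ex
  push_cast
  rw [h5, h2, rank_eq, h1, ← Finset.sum_add_distrib, ← Finset.sum_add_distrib]
  refine Finset.sum_congr rfl fun K _ => ?_
  rw [card_inf, rank_fix]

end

end Pool.Agent.X156.PR
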