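import Pool.Agent.X156.PR.Cov
import Pool.Agent.X156.PR.Desc

/-!
# Fixed fields of subgroups of the Galois group of number fields
-/

set_option autoImplicit false
set_option linter.unusedSectionVars false

namespace Pool.Agent.X156.PR

open WeierstrassCurve NumberField IsDedekindDomain Pointwise

section inst

variable {k L : Type} [Field k] [NumberField k] [Field L] [NumberField L] [Algebra k L]

instance smulComm : SMulCommClass (L ≃ₐ[k] L) (𝓞 k) (𝓞 L) where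
  smul_comm g a b := by
    apply RingOfIntegers.ext
    rw [Algebra.smul_def, Algebra.smul_def, smul_mul']
    congr 2
    apply RingOfIntegers.ext
    exact g.commutes (a : k)

variable (K : Subgroup (L ≃ₐ[k] L))

instance smulComm' : SMulCommClass K (𝓞 (IntermediateField.fixedField K)) (𝓞 L) where
  smul_comm g a b := by
    apply RingOfIntegers.ext
    rw [Algebra.smul_def, Algebra.smul_def, smul_mul']
    congr 2
    apply RingOfIntegers.ext
    exact (a : IntermediateField.fixedField K).2 g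

instance inv : Algebra.IsInvariant (𝓞 (IntermediateField.fixedField K)) (𝓞 L) K where
  isInvariant b hb := by
    have h1 : (b : L) ∈ IntermediateField.fixedField K := by
      intro h
      exact congrArg (fun x : 𝓞 L => (x : L)) (hb h)
    have h2 : IsIntegral ℤ (⟨(b : L), h1⟩ : IntermediateField.fixedField K) := by
      have h3 := b.isIntegral_coe
      exact (isIntegral_algHom_iff (IntermediateField.fixedField K).val.toRingHom.toIntAlgHom
        (IntermediateField.fixedField K).val.injective).1 h3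
    exact ⟨⟨⟨(b : L), h1⟩, h2⟩, rfl⟩

end inst

section primes

variable {F L : Type} [Field F] [NumberField F] [Field L] [NumberField L] [Algebra F L]

theorem hmax (w : Ideal (𝓞 L)) (hp : w.IsPrime) (h0 : w ≠ ⊥) :
    w.IsMaximal ∧ Finite (𝓞 L ⧸ w) :=
  ⟨hp.isMaximal h0, Ring.HasFiniteQuotients.finiteQuotient h0⟩

theorem hbot (w : Ideal (𝓞 L)) (_ : w.IsPrime) (h0 : w ≠ ⊥) : w.under (𝓞 F) ≠ ⊥ :=
  Ideal.IsIntegral.comap_ne_bot (𝓞 F) h0

theorem hover (P : Ideal (𝓞 F)) (hp : P.IsPrime) (h0 : P ≠ ⊥) :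
    ∃ w : Ideal (𝓞 L), w.IsPrime ∧ w ≠ ⊥ ∧ w.under (𝓞 F) = P := by
  have hm : P.IsMaximal := hp.isMaximal h0
  obtain ⟨w, hw, h⟩ := Ideal.exists_maximal_ideal_liesOver_of_isIntegral (S := 𝓞 L) P
  refine ⟨w, hw.isPrime, ?_, h.over.symm⟩
  rintro rfl
  apply h0
  rw [h.over]
  exact Ideal.under_bot (𝓞 F) (𝓞 L)

end primes

section key

variable {k F : Type} [Field k] [NumberField k] [Field F] [NumberField F] [Algebra k F]

/-- the base change of an integral equation -/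
theorem IsModel.base {W : WeierstrassCurve k} {M : WeierstrassCurve (𝓞 k)} (h : IsModel W M) :
    IsModel (W.baseChange F) (M.map (algebraMap (𝓞 k) (𝓞 F))) := by
  obtain ⟨C, hC⟩ := h
  refine ⟨C.map (algebraMap k F), ?_⟩
  rw [WeierstrassCurve.map_map, WeierstrassCurve.baseChange, map_variableChange, hC,
    WeierstrassCurve.map_map]
  congr 1

/-- a system of equations, one for every prime, which shows that a curve is semistable -/
def System (W : WeierstrassCurve k) (Mod : Ideal (𝓞 k) → WeierstrassCurve (𝓞 k)) : Prop :=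
  ∀ P : Ideal (𝓞 k), P.IsPrime → P ≠ ⊥ → IsModel W (Mod P) ∧
    ((Mod P).Δ ∉ P ∨ ((Mod P).Δ ∈ P ∧ (Mod P).c₄ ∉ P))

theorem exists_system {W : WeierstrassCurve k} (h : Semistable W) : ∃ Mod, System W Mod := by
  classical
  have : ∀ P : Ideal (𝓞 k), ∃ M : WeierstrassCurve (𝓞 k), P.IsPrime → P ≠ ⊥ → IsModel W M ∧
    (M.Δ ∉ P ∨ (M.Δ ∈ P ∧ M.c₄ ∉ P)) := by
    intro P
    by_cases hP : P.IsPrime ∧ P ≠ ⊥
    · rcases h P hP.1 hP.2 with ⟨M, h1, h2⟩ | ⟨M, h1, h2, h3⟩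
      · exact ⟨M, fun _ _ => ⟨h1, Or.inl h2⟩⟩
      · exact ⟨M, fun _ _ => ⟨h1, Or.inr ⟨h2, h3⟩⟩⟩
    · exact ⟨⟨0, 0, 0, 0, 0⟩, fun h1 h2 => absurd ⟨h1, h2⟩ hP⟩
  choose Mod hMod using this
  exact ⟨Mod, hMod⟩

variable {W : WeierstrassCurve k} {Mod : Ideal (𝓞 k) → WeierstrassCurve (𝓞 k)}

/-- **Split primes.** -/
theorem split_iff (hS : System W Mod) (P : Ideal (𝓞 F)) (hP : P.IsPrime) (h0 : P ≠ ⊥) :
    SplitAt (W.baseChange F) P ↔ Bad Mod P ∧ ∃ t : 𝓞 F, slope (nm Mod P) t ∈ P := by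
  obtain ⟨h1, h2⟩ := hS (P.under (𝓞 k)) inferInstance (hbot P hP h0)
  have hmod : IsModel (W.baseChange F) (nm Mod P) := h1.base
  have hD : (nm Mod P).Δ ∈ P ↔ (Mod (P.under (𝓞 k))).Δ ∈ P.under (𝓞 k) := by
    unfold nm
    rw [map_Δ]
    exact Iff.rfl
  have hc : (nm Mod P).c₄ ∈ P ↔ (Mod (P.under (𝓞 k))).c₄ ∈ P.under (𝓞 k) := by
    unfold nm
    rw [map_c₄]
    exact Iff.rfl
  let v : HeightOneSpectrum (𝓞 F) := ⟨P, hP, h0⟩
  constructor
  · rintro ⟨M, hM, hMD, hMc, t, ht⟩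
    rcases h2 with h2 | ⟨h2, h3⟩
    · exact absurd (good_not_mult v hmod hM (fun h => h2 (hD.1 h)) hMD hMc) id
    · have hc' : (nm Mod P).c₄ ∉ P := fun h => h3 (hc.1 h)
      exact ⟨⟨hP, h0, hD.2 h2, hc'⟩, slope_indep v hM hmod hMc hc' ht⟩
  · rintro ⟨⟨-, -, h3, h4⟩, t, ht⟩
    exact ⟨_, hmod, h3, h4, t, ht⟩

/-- the number of primes of split multiplicative reduction -/
noncomputable def splits (W : WeierstrassCurve F) : ℕ :=
  Nat.card {P : Ideal (𝓞 F) // P.IsPrime ∧ P ≠ ⊥ ∧ SplitAt W P}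

theorem splits_eq (hS : System W Mod) : splits (W.baseChange F) = Nat.card (XS Mod (𝓞 F)) := by
  unfold splits XS
  refine Nat.card_congr (Equiv.subtypeEquivRight fun P => ?_)
  constructor
  · rintro ⟨h1, h2, h3⟩
    exact (split_iff hS P h1 h2).1 h3
  · rintro ⟨h1, h2⟩
    exact ⟨h1.1, h1.2.1, (split_iff hS P h1.1 h1.2.1).2 ⟨h1, h2⟩⟩

theorem finite_XS (hS : System W Mod) (hW : W.Δ ≠ 0) : Finite (XS Mod (𝓞 F)) := by
  -- a prime of `k`
  obtain ⟨P0, hP0, hP00⟩ : ∃ P : Ideal (𝓞 k), P.IsPrime ∧ P ≠ ⊥ := by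
    obtain ⟨M, hM⟩ := Ideal.exists_maximal (𝓞 k)
    exact ⟨M, hM.isPrime, Ring.ne_bot_of_isMaximal_of_not_isField hM
      (RingOfIntegers.not_isField k)⟩
  obtain ⟨h1, -⟩ := hS P0 hP0 hP00
  have hne : (Mod P0).Δ ≠ 0 := by
    obtain ⟨C, hC⟩ := h1
    intro h
    have h2 := congrArg WeierstrassCurve.Δ hC
    rw [map_Δ, h, map_zero, variableChange_Δ] at h2
    rcases mul_eq_zero.1 h2 with h3 | h3
    · exact (pow_ne_zero 12 (Units.ne_zero C.u⁻¹)) h3
    · exact hW h3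
  have hne' : algebraMap (𝓞 k) (𝓞 F) (Mod P0).Δ ≠ 0 := by
    intro h
    exact hne ((FaithfulSMul.algebraMap_injective (𝓞 k) (𝓞 F)) (by rw [h, map_zero]))
  have hmem : ∀ x : XS Mod (𝓞 F), algebraMap (𝓞 k) (𝓞 F) (Mod P0).Δ ∈ x.1 := by
    rintro ⟨P, hP, t, ht⟩
    by_contra hcon
    let v : HeightOneSpectrum (𝓞 F) := ⟨P, hP.1, hP.2.1⟩
    obtain ⟨h3, -⟩ := hS (P.under (𝓞 k)) (by have := hP.1; infer_instance)
      (hbot P hP.1 hP.2.1)
    refine good_not_mult v (W := W.baseChange F) (M := (Mod P0).map (algebraMap (𝓞 k) (𝓞 F)))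
      (M' := nm Mod P) h1.base h3.base ?_ hP.2.2.1 hP.2.2.2
    rw [map_Δ]
    exact hcon
  have hfin := Ideal.finite_factors (R := 𝓞 F)
    (I := Ideal.span {algebraMap (𝓞 k) (𝓞 F) (Mod P0).Δ}) (by
      rwa [Ne, Ideal.zero_eq_bot, Ideal.span_singleton_eq_bot])
  have := hfin.to_subtype
  refine Finite.of_injective (fun x : XS Mod (𝓞 F) => (⟨⟨x.1, x.2.1.1, x.2.1.2.1⟩, ?_⟩ :
    {v : HeightOneSpectrum (𝓞 F) | v.asIdeal ∣
      Ideal.span {algebraMap (𝓞 k) (𝓞 F) (Mod P0).Δ}})) ?_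
  · change x.1 ∣ _
    rw [Ideal.dvd_iff_le, Ideal.span_singleton_le_iff_mem]
    exact hmem x
  · intro x y h
    apply Subtype.ext
    exact congrArg (fun z => z.1.asIdeal) h

end key

end Pool.Agent.X156.PR
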