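import Pool.Agent.X156.PR.Rep

/-!
# Normal subgroups of odd order
-/

set_option autoImplicit false
set_option linter.unusedSectionVars false

namespace Pool.Agent.X156.PR

open Module LinearMap

variable {G : Type} [Group G] [Finite G] {V : Type} [AddCommGroup V] [Module ℚ V]

/-- the vectors fixed by a subgroup -/
def fixS (ρ : G →* (V →ₗ[ℚ] V)) (H : Subgroup G) : Submodule ℚ V where
  carrier := {v | ∀ h ∈ H, ρ h v = v}
  add_mem' := fun {a b} ha hb h hh => by rw [map_add, ha h hh, hb h hh]
  zero_mem' := fun h _ => map_zero _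
  smul_mem' := fun c v hv h hh => by rw [map_smul, hv h hh]

theorem mem_fixS {ρ : G →* (V →ₗ[ℚ] V)} {H : Subgroup G} {v : V} :
    v ∈ fixS ρ H ↔ ∀ h ∈ H, ρ h v = v := Iff.rfl

theorem fixS_anti {ρ : G →* (V →ₗ[ℚ] V)} {H H' : Subgroup G} (h : H ≤ H') :
    fixS ρ H' ≤ fixS ρ H := fun _ hv g hg => hv g (h hg)

variable [FiniteDimensional ℚ V]

theorem trace_inv (ρ : G →* (V →ₗ[ℚ] V)) (h : G) :
    (LinearMap.trace ℚ V) (ρ h⁻¹) = (LinearMap.trace ℚ V) (ρ h) := by
  classical
  have : Fintype G := Fintype.ofFinite G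
  set b := Module.finBasis ℚ V
  set M : G → Matrix (Fin (finrank ℚ V)) (Fin (finrank ℚ V)) ℚ :=
    fun g => LinearMap.toMatrix b b (ρ g) with hM
  have hmul : ∀ g k, M (g * k) = M g * M k := by
    intro g k
    simp only [hM, map_mul]
    rw [LinearMap.toMatrix_mul]
  have hone : M 1 = 1 := by
    simp only [hM, map_one]
    exact LinearMap.toMatrix_one b
  set P : Matrix (Fin (finrank ℚ V)) (Fin (finrank ℚ V)) ℚ :=
    ∑ g : G, (M g).transpose * M g with hP
  have hinv : (M h).transpose * P * M h = P := by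
    rw [hP, Finset.mul_sum, Finset.sum_mul]
    have : ∀ g : G, (M h).transpose * ((M g).transpose * M g) * M h =
        (M (g * h)).transpose * M (g * h) := by
      intro g
      rw [hmul, Matrix.transpose_mul]
      simp only [Matrix.mul_assoc]
    rw [Finset.sum_congr rfl fun g _ => this g]
    exact Fintype.sum_equiv (Equiv.mulRight h) _ _ fun g => rfl
  have hdet : IsUnit P.det := by
    rw [isUnit_iff_ne_zero]
    intro h0
    obtain ⟨x, hx0, hx⟩ := Matrix.exists_mulVec_eq_zero_iff.2 h0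
    apply hx0
    have h1 : dotProduct x (P.mulVec x) = 0 := by rw [hx, dotProduct_zero]
    rw [hP, Matrix.sum_mulVec, dotProduct_sum] at h1
    have h2 : ∀ g : G, dotProduct x (((M g).transpose * M g).mulVec x) =
        dotProduct ((M g).mulVec x) ((M g).mulVec x) := by
      intro g
      rw [← Matrix.mulVec_mulVec, Matrix.dotProduct_mulVec, Matrix.vecMul_transpose]
    rw [Finset.sum_congr rfl fun g _ => h2 g] at h1
    have h3 : ∀ g ∈ Finset.univ, 0 ≤ dotProduct ((M g).mulVec x) ((M g).mulVec x) := by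
      intro g _
      exact Finset.sum_nonneg fun i _ => mul_self_nonneg _
    have h4 := (Finset.sum_eq_zero_iff_of_nonneg h3).1 h1 1 (Finset.mem_univ _)
    rw [hone, Matrix.one_mulVec] at h4
    exact dotProduct_self_eq_zero.1 h4
  have h5 : M h * M h⁻¹ = 1 := by rw [← hmul, mul_inv_cancel, hone]
  have h6 : (M h).transpose = P * M h⁻¹ * P⁻¹ := by
    calc (M h).transpose = (M h).transpose * (P * (M h * M h⁻¹)) * P⁻¹ := by
          rw [h5, Matrix.mul_one, Matrix.mul_assoc, Matrix.mul_nonsing_inv _ hdet, Matrix.mul_one]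
      _ = ((M h).transpose * P * M h) * M h⁻¹ * P⁻¹ := by simp only [Matrix.mul_assoc]
      _ = P * M h⁻¹ * P⁻¹ := by rw [hinv]
  rw [LinearMap.trace_eq_matrix_trace ℚ b, LinearMap.trace_eq_matrix_trace ℚ b]
  change Matrix.trace (M h⁻¹) = Matrix.trace (M h)
  rw [← Matrix.trace_transpose (M h), h6, Matrix.trace_mul_comm, ← Matrix.mul_assoc,
    Matrix.nonsing_inv_mul _ hdet, Matrix.one_mul]

/-- the number of invariants as an average of traces -/
theorem card_mul_fix (ρ : G →* (V →ₗ[ℚ] V)) (N : Subgroup G) [Fintype N] :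
    (Nat.card N : ℚ) * finrank ℚ (fixS ρ N) = ∑ n : N, (LinearMap.trace ℚ V) (ρ n) := by
  classical
  have hc : (Nat.card N : ℚ) ≠ 0 := by
    exact_mod_cast Nat.card_pos.ne'
  have hp : LinearMap.IsProj (fixS ρ N) ((Nat.card N : ℚ)⁻¹ • ∑ n : N, ρ n) := by
    constructor
    · intro v h hh
      rw [LinearMap.smul_apply, map_smul, LinearMap.sum_apply, map_sum]
      congr 1
      have : ∀ n : N, ρ h (ρ n v) = ρ ((⟨h, hh⟩ : N) * n : N) v := by
        intro n
        rw [Subgroup.coe_mul, map_mul]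
        rfl
      rw [Finset.sum_congr rfl fun n _ => this n]
      exact Fintype.sum_equiv (Equiv.mulLeft (⟨h, hh⟩ : N)) _ _ fun n => rfl
    · intro v hv
      rw [LinearMap.smul_apply, LinearMap.sum_apply,
        Finset.sum_congr rfl fun (n : N) _ => hv n n.2, Finset.sum_const, Finset.card_univ,
        ← Nat.card_eq_fintype_card, ← Nat.cast_smul_eq_nsmul ℚ, smul_smul, inv_mul_cancel₀ hc,
        one_smul]
  have h := hp.trace
  rw [map_smul, map_sum, smul_eq_mul] at h
  rw [← h, ← mul_assoc, mul_inv_cancel₀ hc, one_mul]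

/-- **Groups of odd order.** -/
theorem odd_step (ρ : G →* (V →ₗ[ℚ] V)) (N : Subgroup G) (hN : Odd (Nat.card N)) :
    (finrank ℚ V : ZMod 2) = (finrank ℚ (fixS ρ N) : ZMod 2) := by
  classical
  have : Fintype N := Fintype.ofFinite N
  have hint : ∀ n : N, ∃ z : ℤ, (LinearMap.trace ℚ V) (ρ n) = z := by
    intro n
    refine trace_int (ρ n) (orderOf_pos (n : G)) ?_
    rw [← map_pow, pow_orderOf_eq_one, map_one]
  choose c hc using hint
  have hsym : ∀ n : N, c n⁻¹ = c n := by
    intro n
    have h := trace_inv ρ (n : G)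
    have h1 := hc n⁻¹
    rw [Subgroup.coe_inv, h, hc n] at h1
    exact_mod_cast h1.symm
  have h1 := card_mul_fix ρ N
  rw [Finset.sum_congr rfl fun n _ => hc n] at h1
  have h2 : ((Nat.card N : ℕ) : ℤ) * (finrank ℚ (fixS ρ N) : ℤ) = ∑ n : N, c n := by
    exact_mod_cast h1
  have h3 := congrArg (fun z : ℤ => (z : ZMod 2)) h2
  simp only [Int.cast_mul, Int.cast_natCast, Int.cast_sum] at h3
  have hodd : ((Nat.card N : ℕ) : ZMod 2) = 1 := (ZMod.natCast_eq_one_iff_odd).2 hN
  rw [hodd, one_mul] at h3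
  have h4 : ∑ n : N, (c n : ZMod 2) = (c 1 : ZMod 2) := by
    rw [← Finset.add_sum_erase _ _ (Finset.mem_univ (1 : N))]
    have : ∑ n ∈ Finset.univ.erase (1 : N), (c n : ZMod 2) = 0 := by
      refine Finset.sum_involution (fun n _ => n⁻¹) ?_ ?_ ?_ ?_
      · intro n _
        rw [hsym]
        exact CharTwo.add_self_eq_zero _
      · intro n hn _ heq
        have hn1 : n ≠ 1 := (Finset.mem_erase.1 hn).1
        have h5 : n ^ 2 = 1 := by
          rw [pow_two]
          nth_rewrite 1 [← heq]
          exact inv_mul_cancel n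
        have h6 : orderOf n ∣ 2 := orderOf_dvd_of_pow_eq_one h5
        have h7 : orderOf n ∣ Nat.card N := orderOf_dvd_natCard n
        rcases (Nat.dvd_prime Nat.prime_two).1 h6 with h8 | h8
        · exact hn1 (orderOf_eq_one_iff.1 h8)
        · rw [h8] at h7
          rw [Nat.odd_iff] at hN
          omega
      · intro n hn
        rw [Finset.mem_erase] at hn ⊢
        exact ⟨fun h => hn.1 (inv_eq_one.1 h), Finset.mem_univ _⟩
      · intro n _
        exact inv_inv n
    rw [this, add_zero]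
  have h5 : (c 1 : ℚ) = finrank ℚ V := by
    have h6 := hc 1
    rw [Subgroup.coe_one, map_one, LinearMap.trace_one] at h6
    exact h6.symm
  have h6 : c 1 = (finrank ℚ V : ℤ) := by exact_mod_cast h5
  rw [h3, h4, h6, Int.cast_natCast]

end Pool.Agent.X156.PR
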