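import Pool.Agent.X156.PR.Par

/-!
# Permutation representations and double covers
-/

set_option autoImplicit false
set_option linter.unusedSectionVars false

namespace Pool.Agent.X156.PR

open Module LinearMap

section perm

variable {G : Type} [Group G]

/-- the permutation representation -/
def perm (G : Type) [Group G] (X : Type) [MulAction G X] : G →* ((X → ℚ) →ₗ[ℚ] (X → ℚ)) where
  toFun g := LinearMap.funLeft ℚ ℚ (fun x => g⁻¹ • x)
  map_one' := by
    apply LinearMap.ext
    intro f
    funext x
    rw [LinearMap.funLeft_apply, inv_one, one_smul]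
    rfl
  map_mul' a b := by
    apply LinearMap.ext
    intro f
    funext x
    rw [LinearMap.funLeft_apply, mul_inv_rev, mul_smul]
    rfl

theorem perm_apply {X : Type} [MulAction G X] (g : G) (f : X → ℚ) (x : X) :
    perm G X g f x = f (g⁻¹ • x) := rfl

/-- functions fixed by a subgroup are functions on the orbits -/
noncomputable def fixEquiv (X : Type) [MulAction G X] (K : Subgroup G) :
    fixS (perm G X) K ≃ₗ[ℚ] (MulAction.orbitRel.Quotient K X → ℚ) where
  toFun f := fun q => Quotient.liftOn q f.1 (by
    rintro x y ⟨h, rfl⟩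
    have := congrFun (f.2 (h : G) h.2) ((h : G) • y)
    rw [perm_apply, inv_smul_smul] at this
    exact this.symm)
  invFun g := ⟨fun x => g (Quotient.mk _ x), by
    intro h hh
    funext x
    rw [perm_apply]
    congr 1
    apply Quotient.sound
    exact ⟨(⟨h, hh⟩ : K)⁻¹, rfl⟩⟩
  map_add' f g := by
    funext q
    obtain ⟨x, rfl⟩ := Quotient.exists_rep q
    rfl
  map_smul' c f := by
    funext q
    obtain ⟨x, rfl⟩ := Quotient.exists_rep q
    rfl
  left_inv f := by
    apply Subtype.ext
    funext x
    rfl
  right_inv g := by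
    funext q
    obtain ⟨x, rfl⟩ := Quotient.exists_rep q
    rfl

theorem finrank_fix_perm (X : Type) [Finite X] [MulAction G X] (K : Subgroup G) :
    finrank ℚ (fixS (perm G X) K) = Nat.card (MulAction.orbitRel.Quotient K X) := by
  classical
  have : Finite (MulAction.orbitRel.Quotient K X) := Quotient.finite _
  have := Fintype.ofFinite (MulAction.orbitRel.Quotient K X)
  rw [(fixEquiv X K).finrank_eq, Module.finrank_pi, Nat.card_eq_fintype_card]

variable [Finite G]

theorem parity_perm (X : Type) [Finite X] [MulAction G X] (N : Subgroup G) [N.Normal]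
    (hN : Odd (Nat.card N)) {k : ℕ} (hk : N.index = 2 ^ (k + 1)) :
    (Nat.card X : ZMod 2) = ∑ K ∈ (Set.toFinite {K : Subgroup G | K.index = 2}).toFinset,
      (Nat.card (MulAction.orbitRel.Quotient K X) : ZMod 2) := by
  classical
  have := Fintype.ofFinite X
  have h := parity (perm G X) N hN hk
  rw [Module.finrank_pi, ← Nat.card_eq_fintype_card] at h
  rw [h]
  exact Finset.sum_congr rfl fun K _ => by rw [finrank_fix_perm X K]

end perm

section cover

variable {K : Type} [Group K] {X Y : Type} [MulAction K X] [MulAction K Y]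

/-- no element of the group exchanges the two points above `x` -/
def NoSwap (K : Type) [Group K] {X Y : Type} [MulAction K Y] (π : Y → X) (ι : Y → Y) (x : X) :
    Prop := ∀ y, π y = x → ∀ h : K, h • y ≠ ι y

/-- **Double covers.** -/
theorem card_cover [Finite X] [Finite Y] (π : Y → X) (ι : Y → Y)
    (hπ : ∀ (h : K) y, π (h • y) = h • π y) (hι : ∀ (h : K) y, ι (h • y) = h • ι y)
    (hs : Function.Surjective π) (hπι : ∀ y, π (ι y) = π y) (hne : ∀ y, ι y ≠ y)
    (htwo : ∀ y y', π y = π y' → y' = y ∨ y' = ι y) :
    Nat.card (MulAction.orbitRel.Quotient K Y) = Nat.card (MulAction.orbitRel.Quotient K X) +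
      Nat.card {o : MulAction.orbitRel.Quotient K X //
        ∃ x, (Quotient.mk _ x : MulAction.orbitRel.Quotient K X) = o ∧ NoSwap K π ι x} := by
  classical
  have : Finite (MulAction.orbitRel.Quotient K X) := Quotient.finite _
  have : Finite (MulAction.orbitRel.Quotient K Y) := Quotient.finite _
  rw [← Nat.card_sum]
  choose s hs' using hs
  -- the chosen point over the chosen representative
  set r : MulAction.orbitRel.Quotient K X → Y := fun o => s (Quotient.out o) with hr
  have hπr : ∀ o, (Quotient.mk _ (π (r o)) : MulAction.orbitRel.Quotient K X) = o := by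
    intro o
    rw [hr]
    simp only [hs']
    exact Quotient.out_eq o
  have hmk : ∀ y y' : Y, (Quotient.mk _ y : MulAction.orbitRel.Quotient K Y) = Quotient.mk _ y' →
      (Quotient.mk _ (π y) : MulAction.orbitRel.Quotient K X) = Quotient.mk _ (π y') := by
    intro y y' h
    obtain ⟨g, hg⟩ := Quotient.exact h
    apply Quotient.sound
    exact ⟨g, by rw [← hg]; exact (hπ g y').symm⟩
  have hιι : ∀ y, ι (ι y) = y := by
    intro y
    rcases htwo (ι y) y (hπι y) with h | h
    · exact absurd h.symm (hne y)
    · exact h.symm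
  set Φ : MulAction.orbitRel.Quotient K X ⊕ {o : MulAction.orbitRel.Quotient K X //
        ∃ x, (Quotient.mk _ x : MulAction.orbitRel.Quotient K X) = o ∧ NoSwap K π ι x} →
        MulAction.orbitRel.Quotient K Y :=
    Sum.elim (fun o => Quotient.mk _ (r o)) (fun o => Quotient.mk _ (ι (r o.1))) with hΦ
  refine (Nat.card_congr (Equiv.ofBijective Φ ⟨?_, ?_⟩)).symm
  · rintro (o | ⟨o, ho⟩) (o' | ⟨o', ho'⟩) h
    · simp only [hΦ, Sum.elim_inl] at h
      have := hmk _ _ h
      rw [hπr, hπr] at this
      rw [this]
    · exfalso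
      simp only [hΦ, Sum.elim_inl, Sum.elim_inr] at h
      have h1 := hmk _ _ h
      rw [hπι, hπr, hπr] at h1
      subst h1
      obtain ⟨g, hg⟩ := Quotient.exact h.symm
      obtain ⟨x, hx, hns⟩ := ho'
      have h2 : (Quotient.mk _ x : MulAction.orbitRel.Quotient K X) = Quotient.mk _ (π (r o)) := by
        rw [hx, hπr]
      obtain ⟨a, ha⟩ := Quotient.exact h2
      have ha' : a • π (r o) = x := ha
      have hg' : g • r o = ι (r o) := hg
      refine hns (a • r o) (by rw [hπ, ha']) (a * g * a⁻¹) ?_
      rw [mul_smul, mul_smul, inv_smul_smul, hg', hι]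
    · exfalso
      simp only [hΦ, Sum.elim_inl, Sum.elim_inr] at h
      have h1 := hmk _ _ h
      rw [hπι, hπr, hπr] at h1
      subst h1
      obtain ⟨g, hg⟩ := Quotient.exact h
      obtain ⟨x, hx, hns⟩ := ho
      have h2 : (Quotient.mk _ x : MulAction.orbitRel.Quotient K X) = Quotient.mk _ (π (r o)) := by
        rw [hx, hπr]
      obtain ⟨a, ha⟩ := Quotient.exact h2
      have ha' : a • π (r o) = x := ha
      have hg' : g • r o = ι (r o) := hg
      refine hns (a • r o) (by rw [hπ, ha']) (a * g * a⁻¹) ?_
      rw [mul_smul, mul_smul, inv_smul_smul, hg', hι]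
    · simp only [hΦ, Sum.elim_inr] at h
      have := hmk _ _ h
      rw [hπι, hπι, hπr, hπr] at this
      subst this
      rfl
  · intro q
    obtain ⟨y, rfl⟩ := Quotient.exists_rep q
    set o : MulAction.orbitRel.Quotient K X := Quotient.mk _ (π y) with ho
    obtain ⟨g, hg⟩ := Quotient.exact (hπr o)
    have hg' : g • π y = π (r o) := hg
    have hgy : π (r o) = π (g • y) := by rw [hπ, hg']
    have hq : (Quotient.mk _ y : MulAction.orbitRel.Quotient K Y) = Quotient.mk _ (g • y) := by
      apply Quotient.sound
      exact ⟨g⁻¹, inv_smul_smul g y⟩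
    rcases htwo _ _ hgy with h | h
    · refine ⟨Sum.inl o, ?_⟩
      simp only [hΦ, Sum.elim_inl]
      change _ = (Quotient.mk _ y : MulAction.orbitRel.Quotient K Y)
      rw [hq, h]
    · by_cases hns : NoSwap K π ι (π (r o))
      · refine ⟨Sum.inr ⟨o, π (r o), hπr o, hns⟩, ?_⟩
        simp only [hΦ, Sum.elim_inr]
        change _ = (Quotient.mk _ y : MulAction.orbitRel.Quotient K Y)
        rw [hq, h]
      · refine ⟨Sum.inl o, ?_⟩
        simp only [hΦ, Sum.elim_inl]
        unfold NoSwap at hns
        push Not at hns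
        obtain ⟨y', hy', a, ha⟩ := hns
        have h3 : ∃ b : K, b • r o = ι (r o) := by
          rcases htwo _ _ hy'.symm with h4 | h4
          · exact ⟨a, by rw [← h4, ha]⟩
          · refine ⟨a, ?_⟩
            rw [h4, hιι, ← hι] at ha
            have h5 := hιι (a • r o)
            rw [ha] at h5
            exact h5.symm
        obtain ⟨b, hb⟩ := h3
        change _ = (Quotient.mk _ y : MulAction.orbitRel.Quotient K Y)
        rw [hq, h]
        apply Quotient.sound
        exact ⟨b⁻¹, by change b⁻¹ • ι (r o) = r o; rw [← hb, inv_smul_smul]⟩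

end cover

end Pool.Agent.X156.PR
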