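import Pool.Agent.X156.PR.Two

/-!
# The parity of the dimension of a rational representation

Let `G` be a finite group with a normal subgroup `N` of odd order such that `G/N` is a nontrivial
`2`-group. The dimension of every rational representation `V` of `G` is congruent modulo two to the
sum of the dimensions of the spaces `V^K` for the subgroups `K` of index two.
-/

set_option autoImplicit false
set_option linter.unusedSectionVars false

namespace Pool.Agent.X156.PR

open Module LinearMap

variable {G : Type} [Group G] [Finite G] {V : Type} [AddCommGroup V] [Module ℚ V]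

theorem squares_normal : (Subgroup.closure (Set.range fun g : G => g ^ 2)).Normal := by
  constructor
  intro x hx g
  induction hx using Subgroup.closure_induction with
  | mem x hx =>
    obtain ⟨h, rfl⟩ := hx
    refine Subgroup.subset_closure ⟨g * h * g⁻¹, ?_⟩
    exact conj_pow
  | one => rw [mul_one, mul_inv_cancel]; exact Subgroup.one_mem _
  | mul x y _ _ hx hy =>
    have := Subgroup.mul_mem _ hx hy
    have e : g * (x * y) * g⁻¹ = g * x * g⁻¹ * (g * y * g⁻¹) := by group
    rwa [e]
  | inv x _ hx =>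
    have := Subgroup.inv_mem _ hx
    have e : g * x⁻¹ * g⁻¹ = (g * x * g⁻¹)⁻¹ := by group
    rwa [e]

theorem sq_normal (M : Subgroup G) [M.Normal] : (sq M).Normal := by
  have := squares_normal (G := G)
  unfold sq
  infer_instance

/-- a nontrivial normal subgroup of a `2`-group contains a central element of order two -/
theorem exists_central {Q : Type} [Group Q] [Finite Q] (hQ : IsPGroup 2 Q) (S : Subgroup Q)
    [S.Normal] (hS : S ≠ ⊥) : ∃ y ∈ S, y ≠ 1 ∧ y * y = 1 ∧ ∀ q : Q, q * y = y * q := by
  have hc : 2 ∣ Nat.card S := by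
    have h1 : IsPGroup 2 S := hQ.to_subgroup S
    obtain ⟨n, hn⟩ := (IsPGroup.iff_card).1 h1
    rcases Nat.eq_zero_or_pos n with h0 | h0
    · exfalso
      rw [h0, pow_zero] at hn
      exact hS (Subgroup.card_eq_one.1 hn)
    · rw [hn]
      exact dvd_pow_self 2 h0.ne'
  have hQ' : IsPGroup 2 (ConjAct Q) := hQ.of_equiv ConjAct.toConjAct
  obtain ⟨b, hb, hb1⟩ := hQ'.exists_fixed_point_of_prime_dvd_card_of_fixed_point S hc
    (a := (1 : S)) (fun g => smul_one g)
  have hcen : ∀ q : Q, q * (b : Q) = b * q := by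
    intro q
    have h := congrArg Subtype.val (hb (ConjAct.toConjAct q))
    have h2 : q * (b : Q) * q⁻¹ = b := h
    rw [mul_inv_eq_iff_eq_mul] at h2
    exact h2
  have hbne : (b : Q) ≠ 1 := fun h => hb1 (Subtype.ext h.symm)
  obtain ⟨n, hn⟩ := hQ (b : Q)
  have hex : ∃ n, (b : Q) ^ 2 ^ n = 1 := ⟨n, hn⟩
  classical
  obtain ⟨m, hm⟩ : ∃ m, Nat.find hex = m + 1 := by
    refine Nat.exists_eq_succ_of_ne_zero ?_
    intro h0
    have := Nat.find_spec hex
    rw [h0, pow_zero, pow_one] at this
    exact hbne this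
  refine ⟨(b : Q) ^ 2 ^ m, S.pow_mem b.2 _, ?_, ?_, ?_⟩
  · exact Nat.find_min hex (by rw [hm]; exact Nat.lt_succ_self m)
  · have := Nat.find_spec hex
    rw [hm, pow_succ, mul_comm, two_mul, pow_add] at this
    exact this
  · intro q
    exact ((Commute.pow_right (hcen q : Commute q (b : Q)) (2 ^ m)))

theorem exists_z (M : Subgroup G) [M.Normal] {k : ℕ} (hM : M.index = 2 ^ k) (h : ¬ sq M ≤ M) :
    ∃ z ∈ sq M, z ∉ M ∧ z * z ∈ M ∧ ∀ g : G, g * z * g⁻¹ * z⁻¹ ∈ M := by
  have hQ : IsPGroup 2 (G ⧸ M) := IsPGroup.of_card (n := k) hM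
  have := sq_normal M
  have hn : ((sq M).map (QuotientGroup.mk' M)).Normal :=
    Subgroup.Normal.map inferInstance _ (QuotientGroup.mk'_surjective M)
  have hS : (sq M).map (QuotientGroup.mk' M) ≠ ⊥ := by
    intro h0
    apply h
    rw [Subgroup.map_eq_bot_iff, QuotientGroup.ker_mk'] at h0
    exact h0
  obtain ⟨y, hy, hy1, hy2, hy3⟩ := exists_central hQ _ hS
  obtain ⟨z, hz, rfl⟩ := hy
  refine ⟨z, hz, ?_, ?_, ?_⟩
  · intro hzM
    exact hy1 ((QuotientGroup.eq_one_iff z).2 hzM)
  · rw [← map_mul] at hy2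
    exact (QuotientGroup.eq_one_iff _).1 hy2
  · intro g
    refine (QuotientGroup.eq_one_iff _).1 ?_
    have h1 := hy3 (QuotientGroup.mk' M g)
    change QuotientGroup.mk' M (g * z * g⁻¹ * z⁻¹) = 1
    rw [map_mul, map_mul, map_mul, map_inv, map_inv, h1]
    group

variable [FiniteDimensional ℚ V]

open scoped Classical in
/-- the sum over the subgroups of index two which contain `M` -/
noncomputable def sm (ρ : G →* (V →ₗ[ℚ] V)) (M : Subgroup G) : ZMod 2 :=
  ∑ K ∈ (Set.toFinite {K : Subgroup G | K.index = 2 ∧ M ≤ K}).toFinset,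
    (finrank ℚ (fixS ρ K) : ZMod 2)

theorem two_part (ρ : G →* (V →ₗ[ℚ] V)) (k : ℕ) : ∀ (M : Subgroup G) [M.Normal],
    M.index = 2 ^ (k + 1) → (finrank ℚ (fixS ρ M) : ZMod 2) = sm ρ M := by
  classical
  induction k with
  | zero =>
    intro M _ hM
    rw [zero_add, pow_one] at hM
    have : (Set.toFinite {K : Subgroup G | K.index = 2 ∧ M ≤ K}).toFinset = {M} := by
      ext K
      rw [Set.Finite.mem_toFinset, Set.mem_ofPred_eq, Finset.mem_singleton]
      constructor
      · rintro ⟨h1, h2⟩
        have h3 := Subgroup.relIndex_mul_index h2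
        rw [h1, hM] at h3
        have h4 : M.relIndex K = 1 := by omega
        exact le_antisymm (Subgroup.relIndex_eq_one.1 h4) h2
      · rintro rfl
        exact ⟨hM, le_rfl⟩
    rw [sm, this, Finset.sum_singleton]
  | succ k ih =>
    intro M _ hM
    by_cases hsq : sq M ≤ M
    · -- the quotient is elementary abelian
      have hsq2 : ∀ g : G, g * g ∈ M := by
        intro g
        rw [← pow_two]
        exact hsq ((le_sup_left : _ ≤ sq M) (Subgroup.subset_closure ⟨g, rfl⟩))
      have hcomm : ∀ g h : G, g * h * g⁻¹ * h⁻¹ ∈ M := by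
        intro g h
        have e : g * h * g⁻¹ * h⁻¹ = (g * h) * (g * h) * (h⁻¹ * (g⁻¹ * g⁻¹) * h) *
          (h⁻¹ * h⁻¹) := by group
        rw [e]
        refine M.mul_mem (M.mul_mem (hsq2 _) ?_) (hsq2 _)
        have := (inferInstance : M.Normal).conj_mem _ (hsq2 g⁻¹) h⁻¹
        rwa [inv_inv] at this
      have hidx : M.index = 2 * 2 ^ (k + 1) := by rw [hM]; ring
      obtain ⟨a, ha⟩ : ∃ a, a ∉ M := by
        by_contra hcon
        push Not at hcon
        have : M = ⊤ := (Subgroup.eq_top_iff' M).2 hcon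
        rw [this, Subgroup.index_top] at hM
        have : 1 < 2 ^ (k + 1 + 1) := Nat.one_lt_two_pow (by omega)
        omega
      have hia := ext_index M (hsq2 a) ha hidx
      obtain ⟨b, hb⟩ : ∃ b, b ∉ ext M a := by
        by_contra hcon
        push Not at hcon
        have : ext M a = ⊤ := (Subgroup.eq_top_iff' _).2 hcon
        rw [this, Subgroup.index_top] at hia
        have : 1 < 2 ^ (k + 1) := Nat.one_lt_two_pow (by omega)
        omega
      have hbM : b ∉ M := fun h => hb (le_ext M a h)
      have habM : a * b ∉ M := by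
        intro h
        apply hb
        have h1 : a⁻¹ * (a * b) ∈ ext M a :=
          (ext M a).mul_mem ((ext M a).inv_mem (self_mem_ext M a)) (le_ext M a h)
        rwa [inv_mul_cancel_left] at h1
      have hna := ext_normal M (z := a) (fun g => hcomm g a)
      have hnb := ext_normal M (z := b) (fun g => hcomm g b)
      have hnab := ext_normal M (z := a * b) (fun g => hcomm g (a * b))
      have hib := ext_index M (hsq2 b) hbM hidx
      have hiab := ext_index M (hsq2 (a * b)) habM hidx
      have e1 := ih (ext M a) hia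
      have e2 := ih (ext M b) hib
      have e3 := ih (ext M (a * b)) hiab
      have hab : ∀ v, sub ρ M a (sub ρ M b v) = sub ρ M b (sub ρ M a v) := by
        intro v
        have h1 : sub ρ M (a * b) = sub ρ M (b * a) := by
          refine sub_eq ρ M ?_
          have := hcomm a⁻¹ b⁻¹
          have e : (b * a)⁻¹ * (a * b) = a⁻¹ * b⁻¹ * a⁻¹⁻¹ * b⁻¹⁻¹ := by group
          rwa [e]
        rw [map_mul, map_mul] at h1
        exact congrArg (fun f : fixS ρ M →ₗ[ℚ] fixS ρ M => f v) h1
      have hk := klein (sub ρ M a) (sub ρ M b) (sub_invol ρ M (hsq2 a)) (sub_invol ρ M (hsq2 b))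
        hab
      have hcomp : sub ρ M a ∘ₗ sub ρ M b = sub ρ M (a * b) := by
        rw [map_mul]
        rfl
      rw [hcomp, ← finrank_ext ρ M (hsq2 a), ← finrank_ext ρ M (hsq2 b),
        ← finrank_ext ρ M (hsq2 (a * b)), e1, e2, e3] at hk
      rw [hk]
      have hfil : ∀ x : G, sm ρ (ext M x) =
          ∑ K ∈ (Set.toFinite {K : Subgroup G | K.index = 2 ∧ M ≤ K}).toFinset,
            if x ∈ K then (finrank ℚ (fixS ρ K) : ZMod 2) else 0 := by
        intro x
        rw [← Finset.sum_filter, sm]
        refine Finset.sum_congr ?_ fun _ _ => rfl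
        ext K
        rw [Finset.mem_filter, Set.Finite.mem_toFinset, Set.Finite.mem_toFinset,
          Set.mem_ofPred_eq, Set.mem_ofPred_eq, ext_le_iff M (hsq2 x), and_assoc]
      rw [hfil a, hfil b, hfil (a * b), ← Finset.sum_add_distrib, ← Finset.sum_add_distrib, sm]
      refine Finset.sum_congr rfl fun K hK => ?_
      rw [Set.Finite.mem_toFinset, Set.mem_ofPred_eq] at hK
      have hmul := Subgroup.mul_mem_iff_of_index_two hK.1 (a := a) (b := b)
      have h2 : ∀ t : ZMod 2, t + t + t = t := by decide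
      by_cases h3 : a ∈ K <;> by_cases h4 : b ∈ K <;> simp [h3, h4, hmul, h2]
    · -- there is a central involution which is a product of squares
      obtain ⟨z, hz, hzM, hz2, hzc⟩ := exists_z M hM hsq
      have hn := ext_normal M hzc
      have hi : (ext M z).index = 2 ^ (k + 1) :=
        ext_index M hz2 hzM (by rw [hM]; ring)
      have e1 := ih (ext M z) hi
      have e2 := invol_step (sub ρ M z) (sub_invol ρ M hz2) (det_one ρ M hz)
      rw [e2, ← finrank_ext ρ M hz2, e1]
      unfold sm
      refine Finset.sum_congr ?_ fun _ _ => rfl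
      ext K
      rw [Set.Finite.mem_toFinset, Set.Finite.mem_toFinset, Set.mem_ofPred_eq, Set.mem_ofPred_eq,
        ext_le_iff M hz2]
      constructor
      · rintro ⟨h1, h2, -⟩
        exact ⟨h1, h2⟩
      · rintro ⟨h1, h2⟩
        exact ⟨h1, h2, sq_le h1 h2 hz⟩

/-- a subgroup of index two contains all subgroups of odd order -/
theorem odd_le {N K : Subgroup G} (hN : Odd (Nat.card N)) (hK : K.index = 2) : N ≤ K := by
  intro n hn
  have hodd : Odd (orderOf n) := by
    have : orderOf n ∣ Nat.card N := by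
      have := orderOf_dvd_natCard (⟨n, hn⟩ : N)
      rwa [Subgroup.orderOf_mk] at this
    exact Odd.of_dvd_nat hN this
  obtain ⟨m, hm⟩ := hodd
  have h1 : n = (n ^ 2) ^ (m + 1) := by
    rw [← pow_mul]
    have : 2 * (m + 1) = orderOf n + 1 := by omega
    rw [this, pow_add, pow_orderOf_eq_one, one_mul, pow_one]
  rw [h1]
  exact K.pow_mem (sq_mem_of_index hK n) _

/-- **The parity of the dimension.** -/
theorem parity (ρ : G →* (V →ₗ[ℚ] V)) (N : Subgroup G) [N.Normal] (hN : Odd (Nat.card N)) {k : ℕ}
    (hk : N.index = 2 ^ (k + 1)) :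
    (finrank ℚ V : ZMod 2) = ∑ K ∈ (Set.toFinite {K : Subgroup G | K.index = 2}).toFinset,
      (finrank ℚ (fixS ρ K) : ZMod 2) := by
  rw [odd_step ρ N hN, two_part ρ k N hk, sm]
  refine Finset.sum_congr ?_ fun _ _ => rfl
  ext K
  rw [Set.Finite.mem_toFinset, Set.Finite.mem_toFinset, Set.mem_ofPred_eq, Set.mem_ofPred_eq]
  exact ⟨fun h => h.1, fun h => ⟨h, odd_le hN h⟩⟩

end Pool.Agent.X156.PR
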