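import Mathlib

/-!
# Dimensions of fixed spaces of rational representations modulo two
-/

set_option autoImplicit false

namespace Pool.Agent.X156.PR

open Module LinearMap

section inv

variable {V : Type} [AddCommGroup V] [Module ℚ V]

/-- the fixed vectors of an endomorphism -/
def fx (T : V →ₗ[ℚ] V) : Submodule ℚ V := LinearMap.ker (T - LinearMap.id)

theorem mem_fx {T : V →ₗ[ℚ] V} {v : V} : v ∈ fx T ↔ T v = v := by
  unfold fx
  rw [LinearMap.mem_ker, LinearMap.sub_apply, LinearMap.id_apply, sub_eq_zero]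

variable [FiniteDimensional ℚ V]

/-- the determinant of an involution -/
theorem det_invol (T : V →ₗ[ℚ] V) (h2 : ∀ v, T (T v) = v) :
    LinearMap.det T = (-1) ^ (finrank ℚ (V ⧸ fx T)) := by
  have he : fx T ≤ (fx T).comap T := by
    intro v hv
    rw [mem_fx] at hv
    rw [Submodule.mem_comap, mem_fx, hv, hv]
  rw [LinearMap.det_eq_det_mul_det (fx T) T he]
  have h1 : T.restrict he = LinearMap.id := by
    apply LinearMap.ext
    intro v
    apply Subtype.ext
    exact mem_fx.1 v.2
  have h3 : (fx T).mapQ (fx T) T he = (-1 : ℚ) • LinearMap.id := by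
    apply LinearMap.ext
    intro x
    obtain ⟨v, rfl⟩ := Submodule.Quotient.mk_surjective _ x
    rw [Submodule.mapQ_apply, LinearMap.smul_apply, LinearMap.id_apply, neg_smul, one_smul,
      ← Submodule.Quotient.mk_neg, Submodule.Quotient.eq, mem_fx, sub_neg_eq_add, map_add, h2]
    exact add_comm _ _
  rw [h1, h3, LinearMap.det_id, one_mul, LinearMap.det_smul, LinearMap.det_id, mul_one]

/-- **Step of index two.** -/
theorem invol_step (T : V →ₗ[ℚ] V) (h2 : ∀ v, T (T v) = v) (hd : LinearMap.det T = 1) :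
    (finrank ℚ V : ZMod 2) = (finrank ℚ (fx T) : ZMod 2) := by
  have h := det_invol T h2
  rw [hd] at h
  have he : Even (finrank ℚ (V ⧸ fx T)) := by
    by_contra ho
    rw [Nat.not_even_iff_odd] at ho
    rw [ho.neg_one_pow] at h
    norm_num at h
  have h3 := Submodule.finrank_quotient_add_finrank (fx T)
  rw [← h3, Nat.cast_add, (ZMod.natCast_eq_zero_iff_even).2 he, zero_add]

end inv

section four

variable {V : Type} [AddCommGroup V] [Module ℚ V] [FiniteDimensional ℚ V]

theorem trace_invol (T : V →ₗ[ℚ] V) (h2 : ∀ v, T (T v) = v) :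
    (LinearMap.trace ℚ V) T = 2 * (finrank ℚ (fx T) : ℚ) - finrank ℚ V := by
  have hp : LinearMap.IsProj (fx T) ((1 / 2 : ℚ) • (LinearMap.id + T)) := by
    constructor
    · intro v
      rw [mem_fx]
      simp only [LinearMap.smul_apply, LinearMap.add_apply, LinearMap.id_apply, map_smul, map_add,
        h2]
      rw [add_comm]
    · intro v hv
      rw [mem_fx] at hv
      simp only [LinearMap.smul_apply, LinearMap.add_apply, LinearMap.id_apply, hv]
      rw [← two_smul ℚ v, smul_smul]
      norm_num
  have h := hp.trace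
  rw [map_smul, map_add, LinearMap.trace_id, smul_eq_mul] at h
  linarith

/-- two commuting involutions -/
theorem klein (A B : V →ₗ[ℚ] V) (hA : ∀ v, A (A v) = v) (hB : ∀ v, B (B v) = v)
    (hAB : ∀ v, A (B v) = B (A v)) :
    (finrank ℚ V : ZMod 2) = (finrank ℚ (fx A) : ZMod 2) + (finrank ℚ (fx B) : ZMod 2) +
      (finrank ℚ (fx (A ∘ₗ B)) : ZMod 2) := by
  have hC : ∀ v, (A ∘ₗ B) ((A ∘ₗ B) v) = v := by
    intro v
    simp only [LinearMap.comp_apply]
    rw [← hAB (B v), hB, hA]
  have h1 := trace_invol A hA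
  have h2 := trace_invol B hB
  have h3 := trace_invol (A ∘ₗ B) hC
  have hp : LinearMap.IsProj (fx A ⊓ fx B)
      ((1 / 4 : ℚ) • (LinearMap.id + A + B + A ∘ₗ B)) := by
    constructor
    · intro v
      rw [Submodule.mem_inf, mem_fx, mem_fx]
      constructor
      · simp only [LinearMap.smul_apply, LinearMap.add_apply, LinearMap.id_apply, map_smul, map_add,
          LinearMap.comp_apply, hA]
        congr 1
        abel
      · simp only [LinearMap.smul_apply, LinearMap.add_apply, LinearMap.id_apply, map_smul, map_add,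
          LinearMap.comp_apply, hB, ← hAB]
        congr 1
        abel
    · intro v hv
      rw [Submodule.mem_inf, mem_fx, mem_fx] at hv
      simp only [LinearMap.smul_apply, LinearMap.add_apply, LinearMap.id_apply,
        LinearMap.comp_apply, hv.1, hv.2]
      have : v + v + v + v = (4 : ℚ) • v := by
        have h4 : (4 : ℚ) = 1 + 1 + 1 + 1 := by norm_num
        rw [h4, add_smul, add_smul, add_smul, one_smul]
      rw [this, smul_smul]
      norm_num
  have h := hp.trace
  rw [map_smul, map_add, map_add, map_add, LinearMap.trace_id, smul_eq_mul] at h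
  have key : (finrank ℚ V : ℚ) + 2 * (finrank ℚ ↥(fx A ⊓ fx B) : ℚ) =
      finrank ℚ (fx A) + finrank ℚ (fx B) + finrank ℚ (fx (A ∘ₗ B)) := by
    linarith
  have key2 : finrank ℚ V + 2 * finrank ℚ ↥(fx A ⊓ fx B) =
      finrank ℚ (fx A) + finrank ℚ (fx B) + finrank ℚ (fx (A ∘ₗ B)) := by
    exact_mod_cast key
  have h5 := congrArg (fun n : ℕ => (n : ZMod 2)) key2
  simp only [Nat.cast_add, Nat.cast_mul] at h5
  rw [← h5]
  have : ((2 : ℕ) : ZMod 2) = 0 := by decide
  rw [this, zero_mul, add_zero]

end four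

section tr

variable {V : Type} [AddCommGroup V] [Module ℚ V] [FiniteDimensional ℚ V]

/-- the trace of an endomorphism of finite order is an integer -/
theorem trace_int (T : V →ₗ[ℚ] V) {m : ℕ} (hm : 0 < m) (hT : T ^ m = 1) :
    ∃ z : ℤ, (LinearMap.trace ℚ V) T = z := by
  classical
  set b := Module.finBasis ℚ V
  set M := LinearMap.toMatrix b b T with hM
  have hMm : M ^ m = 1 := by
    rw [hM, LinearMap.toMatrix_pow, hT, LinearMap.toMatrix_one]
  set Ω := AlgebraicClosure ℚ
  set M' := M.map (algebraMap ℚ Ω) with hM'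
  have hM'm : M' ^ m = 1 := by
    have h := congrArg (fun X : Matrix _ _ ℚ => X.map (algebraMap ℚ Ω)) hMm
    simp only [Matrix.map_pow] at h
    rw [hM', h]
    exact Matrix.map_one _ (map_zero _) (map_one _)
  have htr : algebraMap ℚ Ω ((LinearMap.trace ℚ V) T) = (M'.charpoly.roots).sum := by
    rw [← Matrix.trace_eq_sum_roots_charpoly, LinearMap.trace_eq_matrix_trace ℚ b T, hM',
      ← hM]
    simp only [Matrix.trace, Matrix.diag, Matrix.map_apply, map_sum]
  have hint : IsIntegral ℤ (M'.charpoly.roots).sum := by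
    apply IsIntegral.multiset_sum
    intro μ hμ
    have hμ2 : M'.charpoly.IsRoot μ := Polynomial.isRoot_of_mem_roots hμ
    have hμ3 : Module.End.HasEigenvalue (Matrix.toLin' M') μ := by
      rw [Module.End.hasEigenvalue_iff_isRoot_charpoly, Matrix.charpoly_toLin']
      exact hμ2
    obtain ⟨v, hv⟩ := hμ3.exists_hasEigenvector
    have h4 : (Matrix.toLin' M') ^ m = 1 := by
      rw [← Matrix.toLin'_pow, hM'm]
      exact Matrix.toLin'_one
    have h5 := hv.pow_apply m
    rw [h4] at h5
    have h6 : μ ^ m = 1 := by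
      have h7 : (μ ^ m - 1) • v = 0 := by
        rw [sub_smul, one_smul, ← h5]
        simp
      rcases smul_eq_zero.1 h7 with h8 | h8
      · exact sub_eq_zero.1 h8
      · exact absurd h8 hv.2
    exact IsIntegral.of_pow hm (by rw [h6]; exact isIntegral_one)
  rw [← htr] at hint
  have h9 : IsIntegral ℤ ((LinearMap.trace ℚ V) T) :=
    (isIntegral_algebraMap_iff (algebraMap ℚ Ω).injective).1 hint
  obtain ⟨z, hz⟩ := IsIntegrallyClosed.isIntegral_iff.1 h9
  exact ⟨z, hz.symm⟩

end tr

end Pool.Agent.X156.PR
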