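import Pool.Agent.X156.PR.Loc
import Pool.Agent.X156.PR.Orb

/-!
# The split primes and the slopes at them as sets with a group action
-/

set_option autoImplicit false
set_option linter.unusedSectionVars false

namespace Pool.Agent.X156.PR

open WeierstrassCurve Pointwise

section

variable {R B : Type} [CommRing R] [CommRing B] [Algebra R B] (Mod : Ideal R → WeierstrassCurve R)

/-- the equation used at the ideal `w` -/
noncomputable def nm (w : Ideal B) : WeierstrassCurve B :=
  (Mod (w.under R)).map (algebraMap R B)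

/-- a nonzero prime at which the equation has a node -/
def Bad (w : Ideal B) : Prop :=
  w.IsPrime ∧ w ≠ ⊥ ∧ (nm Mod w).Δ ∈ w ∧ (nm Mod w).c₄ ∉ w

/-- the split primes -/
def XS (B : Type) [CommRing B] [Algebra R B] : Type :=
  {w : Ideal B // Bad Mod w ∧ ∃ t : B, slope (nm Mod w) t ∈ w}

/-- the split primes together with a slope in the residue ring -/
def YS (B : Type) [CommRing B] [Algebra R B] : Type :=
  {y : Ideal B × Set B // Bad Mod y.1 ∧ ∃ t : B, slope (nm Mod y.1) t ∈ y.1 ∧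
    y.2 = {s | s - t ∈ y.1}}

variable {Mod}

/-- the projection -/
def pr (y : YS Mod B) : XS Mod B :=
  ⟨y.1.1, y.2.1, by obtain ⟨t, ht, -⟩ := y.2.2; exact ⟨t, ht⟩⟩

theorem slope_conj {S : Type} [CommRing S] (M : WeierstrassCurve S) (t : S) :
    slope M (-M.a₁ - t) = slope M t := by
  unfold slope
  ring

/-- the other slope -/
def sw (y : YS Mod B) : YS Mod B :=
  ⟨(y.1.1, {s | -(nm Mod y.1.1).a₁ - s ∈ y.1.2}), y.2.1, by
    obtain ⟨t, ht, hS⟩ := y.2.2
    refine ⟨-(nm Mod y.1.1).a₁ - t, ?_, ?_⟩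
    · rw [slope_conj]
      exact ht
    · ext s
      rw [Set.mem_ofPred_eq, Set.mem_ofPred_eq, hS, Set.mem_ofPred_eq, ← y.1.1.neg_mem_iff]
      have : -(-(nm Mod y.1.1).a₁ - s - t) = s - (-(nm Mod y.1.1).a₁ - t) := by ring
      rw [this]⟩

theorem pr_sw (y : YS Mod B) : pr (sw y) = pr y := rfl

theorem c6_identity {S : Type} [CommRing S] (M : WeierstrassCurve S) (t : S) :
    M.c₄ * (2 * t + M.a₁) ^ 2 = 4 * slope M t - M.c₆ := by
  unfold slope
  rw [WeierstrassCurve.c₆, WeierstrassCurve.c₄, WeierstrassCurve.b₂]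
  ring

theorem two_ne {w : Ideal B} (hw : Bad Mod w) {t : B} (ht : slope (nm Mod w) t ∈ w) :
    2 * t + (nm Mod w).a₁ ∉ w := by
  intro h
  obtain ⟨hp, -, hD, hc⟩ := hw
  have h1 := c6_identity (nm Mod w) t
  have h2 : (nm Mod w).c₆ ∈ w := by
    have e : (nm Mod w).c₆ = 4 * slope (nm Mod w) t -
        (nm Mod w).c₄ * (2 * t + (nm Mod w).a₁) ^ 2 := by rw [h1]; ring
    rw [e]
    exact w.sub_mem (w.mul_mem_left _ ht) (w.mul_mem_left _ (w.pow_mem_of_mem h 2 (by norm_num)))
  have h3 := (nm Mod w).c_relation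
  have h4 : (nm Mod w).c₄ ^ 3 ∈ w := by
    have e : (nm Mod w).c₄ ^ 3 = 1728 * (nm Mod w).Δ + (nm Mod w).c₆ ^ 2 := by
      rw [h3]; ring
    rw [e]
    exact w.add_mem (w.mul_mem_left _ hD) (w.pow_mem_of_mem h2 2 (by norm_num))
  exact hc (hp.mem_of_pow_mem 3 h4)

theorem sw_ne (y : YS Mod B) : sw y ≠ y := by
  intro h
  obtain ⟨t, ht, hS⟩ := y.2.2
  have h1 : ({s | -(nm Mod y.1.1).a₁ - s ∈ y.1.2} : Set B) = y.1.2 :=
    congrArg (fun z : YS Mod B => z.1.2) h
  have h2 : t ∈ y.1.2 := by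
    rw [hS, Set.mem_ofPred_eq, sub_self]
    exact y.1.1.zero_mem
  have h3 : t ∈ ({s | -(nm Mod y.1.1).a₁ - s ∈ y.1.2} : Set B) := by rw [h1]; exact h2
  rw [Set.mem_ofPred_eq, hS, Set.mem_ofPred_eq] at h3
  refine two_ne y.2.1 ht ?_
  rw [← y.1.1.neg_mem_iff]
  have e : -(2 * t + (nm Mod y.1.1).a₁) = -(nm Mod y.1.1).a₁ - t - t := by ring
  rwa [e]

theorem coset_eq {w : Ideal B} {t t' : B} (h : t' - t ∈ w) :
    ({s | s - t' ∈ w} : Set B) = {s | s - t ∈ w} := by
  ext s
  rw [Set.mem_ofPred_eq, Set.mem_ofPred_eq]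
  constructor
  · intro hs
    have e : s - t = (s - t') + (t' - t) := by ring
    rw [e]
    exact w.add_mem hs h
  · intro hs
    have e : s - t' = (s - t) - (t' - t) := by ring
    rw [e]
    exact w.sub_mem hs h

theorem two_slopes {w : Ideal B} (hw : Bad Mod w) {t t' : B} (ht : slope (nm Mod w) t ∈ w)
    (ht' : slope (nm Mod w) t' ∈ w) : t' - t ∈ w ∨ t' - (-(nm Mod w).a₁ - t) ∈ w := by
  obtain ⟨hp, -, -, hc⟩ := hw
  have h1 : (nm Mod w).c₄ * ((t' - t) * (t' - (-(nm Mod w).a₁ - t))) ∈ w := by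
    have e : (nm Mod w).c₄ * ((t' - t) * (t' - (-(nm Mod w).a₁ - t))) =
        slope (nm Mod w) t' - slope (nm Mod w) t := by
      unfold slope
      ring
    rw [e]
    exact w.sub_mem ht' ht
  rcases hp.mem_or_mem h1 with h | h
  · exact absurd h hc
  · exact hp.mem_or_mem h

theorem fib (y y' : YS Mod B) (h : pr y = pr y') : y' = y ∨ y' = sw y := by
  obtain ⟨⟨w, S⟩, hw, t, ht, hS⟩ := y
  obtain ⟨⟨w', S'⟩, hw', t', ht', hS'⟩ := y'
  have h1 : w = w' := congrArg Subtype.val h
  subst h1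
  simp only at hS hS' ht ht'
  rcases two_slopes hw ht ht' with h2 | h2
  · left
    apply Subtype.ext
    refine Prod.ext rfl ?_
    change S' = S
    rw [hS, hS', coset_eq h2]
  · right
    apply Subtype.ext
    refine Prod.ext rfl ?_
    change S' = {s | -(nm Mod w).a₁ - s ∈ S}
    rw [hS', coset_eq h2, hS]
    ext s
    rw [Set.mem_ofPred_eq, Set.mem_ofPred_eq, Set.mem_ofPred_eq, ← w.neg_mem_iff]
    have : -(s - (-(nm Mod w).a₁ - t)) = -(nm Mod w).a₁ - s - t := by ring
    rw [this]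

theorem pr_surj : Function.Surjective (pr : YS Mod B → XS Mod B) := by
  rintro ⟨w, hw, t, ht⟩
  exact ⟨⟨(w, {s | s - t ∈ w}), hw, t, ht, rfl⟩, rfl⟩

/-- two slopes at every split prime -/
noncomputable def two (Mod : Ideal R → WeierstrassCurve R) (B : Type) [CommRing B] [Algebra R B] :
    XS Mod B × Bool → YS Mod B :=
  fun x => if x.2 then (pr_surj x.1).choose else sw (pr_surj x.1).choose

theorem two_bij : Function.Bijective (two Mod B) := by
  have hc : ∀ x : XS Mod B, pr (pr_surj x).choose = x := fun x => (pr_surj x).choose_spec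
  constructor
  · rintro ⟨x, b⟩ ⟨x', b'⟩ h
    have h1 : pr (two Mod B (x, b)) = x := by
      unfold two
      cases b
      · exact hc x
      · exact hc x
    have h2 : pr (two Mod B (x', b')) = x' := by
      unfold two
      cases b'
      · exact hc x'
      · exact hc x'
    have h3 : x = x' := by rw [← h1, ← h2, h]
    subst h3
    cases b <;> cases b'
    · rfl
    · exact absurd h (sw_ne _)
    · exact absurd h.symm (sw_ne _)
    · rfl
  · intro y
    rcases fib (pr_surj (pr y)).choose y (hc (pr y)) with h | h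
    · exact ⟨(pr y, true), h.symm⟩
    · exact ⟨(pr y, false), h.symm⟩

theorem card_YS : Nat.card (YS Mod B) = 2 * Nat.card (XS Mod B) := by
  rw [← Nat.card_congr (Equiv.ofBijective _ (two_bij (Mod := Mod) (B := B))), Nat.card_prod,
    Nat.card_eq_fintype_card (α := Bool), Fintype.card_bool, mul_comm]

theorem finite_YS [Finite (XS Mod B)] : Finite (YS Mod B) :=
  Finite.of_equiv _ (Equiv.ofBijective _ (two_bij (Mod := Mod) (B := B)))

end

section act

variable {R B : Type} [CommRing R] [CommRing B] [Algebra R B] {Mod : Ideal R → WeierstrassCurve R}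
  {G : Type} [Group G] [MulSemiringAction G B] [SMulCommClass G R B]

theorem nm_smul (g : G) (w : Ideal B) : nm Mod (g • w) = nm Mod w := by
  unfold nm
  rw [Ideal.under_smul]

theorem mem_smul_iff (g : G) (w : Ideal B) (b : B) : g • b ∈ g • w ↔ b ∈ w :=
  Ideal.smul_mem_pointwise_smul_iff

theorem smul_slope (g : G) (w : Ideal B) (t : B) :
    slope (nm Mod w) (g • t) = g • slope (nm Mod w) t := by
  have h := slope_map (MulSemiringAction.toRingHom G B g) (nm Mod w) t
  have h2 : (nm Mod w).map (MulSemiringAction.toRingHom G B g) = nm Mod w := by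
    unfold nm
    rw [WeierstrassCurve.map_map]
    congr 1
    ext r
    exact smul_algebraMap g r
  rw [h2] at h
  exact h

theorem Bad.smul {w : Ideal B} (hw : Bad Mod w) (g : G) : Bad Mod (g • w) := by
  obtain ⟨hp, h0, hD, hc⟩ := hw
  refine ⟨hp.smul g, ?_, ?_, ?_⟩
  · intro h
    apply h0
    have : g⁻¹ • (g • w) = g⁻¹ • (⊥ : Ideal B) := by rw [h]
    rw [inv_smul_smul] at this
    rw [this]
    exact Ideal.map_bot
  · rw [nm_smul]
    have e : (nm Mod w).Δ = g • (nm Mod w).Δ := by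
      unfold nm
      rw [map_Δ, smul_algebraMap]
    rw [e, mem_smul_iff]
    exact hD
  · rw [nm_smul]
    have e : (nm Mod w).c₄ = g • (nm Mod w).c₄ := by
      unfold nm
      rw [map_c₄, smul_algebraMap]
    rw [e, mem_smul_iff]
    exact hc

noncomputable instance actX : MulAction G (XS Mod B) where
  smul g x := ⟨g • x.1, x.2.1.smul g, by
    obtain ⟨t, ht⟩ := x.2.2
    refine ⟨g • t, ?_⟩
    rw [nm_smul, smul_slope, mem_smul_iff]
    exact ht⟩
  one_smul x := Subtype.ext (one_smul G x.1)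
  mul_smul g h x := Subtype.ext (mul_smul g h x.1)

theorem smul_coset (g : G) (w : Ideal B) (t : B) :
    g • ({s | s - t ∈ w} : Set B) = {s | s - g • t ∈ g • w} := by
  ext s
  rw [Set.mem_smul_set_iff_inv_smul_mem, Set.mem_ofPred_eq, Set.mem_ofPred_eq, ← mem_smul_iff g,
    smul_sub, smul_inv_smul]

noncomputable instance actY : MulAction G (YS Mod B) where
  smul g y := ⟨(g • y.1.1, g • y.1.2), y.2.1.smul g, by
    obtain ⟨t, ht, hS⟩ := y.2.2
    refine ⟨g • t, ?_, ?_⟩
    · change slope (nm Mod (g • y.1.1)) (g • t) ∈ g • y.1.1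
      rw [nm_smul, smul_slope, mem_smul_iff]
      exact ht
    · change g • y.1.2 = _
      rw [hS, smul_coset]⟩
  one_smul y := Subtype.ext (Prod.ext (one_smul G y.1.1) (one_smul G y.1.2))
  mul_smul g h y := Subtype.ext (Prod.ext (mul_smul g h y.1.1) (mul_smul g h y.1.2))

theorem pr_smul (g : G) (y : YS Mod B) : pr (g • y) = g • pr y := rfl

theorem sw_smul (g : G) (y : YS Mod B) : sw (g • y) = g • sw y := by
  apply Subtype.ext
  refine Prod.ext rfl ?_
  change {s | -(nm Mod (g • y.1.1)).a₁ - s ∈ g • y.1.2} =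
    g • {s | -(nm Mod y.1.1).a₁ - s ∈ y.1.2}
  ext s
  rw [Set.mem_ofPred_eq, Set.mem_smul_set_iff_inv_smul_mem, Set.mem_smul_set_iff_inv_smul_mem,
    Set.mem_ofPred_eq, nm_smul, smul_sub, smul_neg]
  have e : g⁻¹ • (nm Mod y.1.1).a₁ = (nm Mod y.1.1).a₁ := by
    unfold nm
    rw [map_a₁, smul_algebraMap]
  rw [e]

end act

end Pool.Agent.X156.PR
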