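import Pool.Agent.X156.PR.Odd

/-!
# Groups with a normal subgroup of index a power of two
-/

set_option autoImplicit false
set_option linter.unusedSectionVars false

namespace Pool.Agent.X156.PR

open Module LinearMap

variable {G : Type} [Group G] [Finite G] {V : Type} [AddCommGroup V] [Module ℚ V]

section ext

/-- the subgroup generated by the normal subgroup `M` and `z` -/
def ext (M : Subgroup G) [M.Normal] (z : G) : Subgroup G :=
  (Subgroup.zpowers (QuotientGroup.mk' M z)).comap (QuotientGroup.mk' M)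

variable (M : Subgroup G) [M.Normal]

theorem le_ext (z : G) : M ≤ ext M z := by
  intro m hm
  unfold ext
  rw [Subgroup.mem_comap]
  have : QuotientGroup.mk' M m = 1 := (QuotientGroup.eq_one_iff m).2 hm
  rw [this]
  exact Subgroup.one_mem _

theorem self_mem_ext (z : G) : z ∈ ext M z := Subgroup.mem_zpowers _

theorem mem_ext {z : G} (hz : z * z ∈ M) {g : G} (hg : g ∈ ext M z) :
    g ∈ M ∨ z⁻¹ * g ∈ M := by
  unfold ext at hg
  rw [Subgroup.mem_comap] at hg
  obtain ⟨n, hn⟩ := Subgroup.mem_zpowers_iff.1 hg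
  have h2 : (QuotientGroup.mk' M z) * (QuotientGroup.mk' M z) = 1 := by
    rw [← map_mul]
    exact (QuotientGroup.eq_one_iff _).2 hz
  rcases Int.even_or_odd n with ⟨k, hk⟩ | ⟨k, hk⟩
  · left
    rw [hk, zpow_add, ← (Commute.refl (QuotientGroup.mk' M z)).mul_zpow, h2, one_zpow] at hn
    exact (QuotientGroup.eq_one_iff g).1 hn.symm
  · right
    rw [hk, two_mul, zpow_add, zpow_add, ← (Commute.refl (QuotientGroup.mk' M z)).mul_zpow, h2,
      one_zpow, one_mul, zpow_one] at hn
    exact (QuotientGroup.eq (s := M)).1 hn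

theorem ext_normal {z : G} (hc : ∀ g : G, g * z * g⁻¹ * z⁻¹ ∈ M) : (ext M z).Normal := by
  have hcen : QuotientGroup.mk' M z ∈ Subgroup.center (G ⧸ M) := by
    rw [Subgroup.mem_center_iff]
    intro q
    obtain ⟨g, rfl⟩ := QuotientGroup.mk'_surjective M q
    have h := (QuotientGroup.eq_one_iff _).2 (hc g)
    have h2 : QuotientGroup.mk' M (g * z * g⁻¹ * z⁻¹) = 1 := h
    rw [map_mul, map_mul, map_mul, map_inv, map_inv, mul_inv_eq_one, mul_inv_eq_iff_eq_mul] at h2
    exact h2
  have : (Subgroup.zpowers (QuotientGroup.mk' M z)).Normal := by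
    constructor
    intro x hx g
    have : x ∈ Subgroup.center (G ⧸ M) :=
      (Subgroup.zpowers_le.2 hcen) hx
    rw [Subgroup.mem_center_iff] at this
    rw [this g, mul_inv_cancel_right]
    exact hx
  unfold ext
  infer_instance

theorem ext_index {z : G} (hz : z * z ∈ M) (hzM : z ∉ M) {n : ℕ} (hn : M.index = 2 * n) :
    (ext M z).index = n := by
  have hsurj := QuotientGroup.mk'_surjective M
  have h1 : (ext M z).index = (Subgroup.zpowers (QuotientGroup.mk' M z)).index := by
    unfold ext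
    exact Subgroup.index_comap_of_surjective _ hsurj
  have h2 : orderOf (QuotientGroup.mk' M z) = 2 := by
    refine orderOf_eq_prime ?_ ?_
    · rw [pow_two, ← map_mul]
      exact (QuotientGroup.eq_one_iff _).2 hz
    · intro h
      exact hzM ((QuotientGroup.eq_one_iff _).1 h)
  have h3 := Subgroup.card_mul_index (Subgroup.zpowers (QuotientGroup.mk' M z))
  rw [Nat.card_zpowers, h2] at h3
  have h4 : Nat.card (G ⧸ M) = 2 * n := hn
  rw [h4] at h3
  rw [h1]
  exact Nat.eq_of_mul_eq_mul_left two_pos h3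

theorem ext_le_iff {z : G} (hz : z * z ∈ M) {K : Subgroup G} :
    ext M z ≤ K ↔ M ≤ K ∧ z ∈ K := by
  constructor
  · intro h
    exact ⟨(le_ext M z).trans h, h (self_mem_ext M z)⟩
  · rintro ⟨h1, h2⟩ g hg
    rcases mem_ext M hz hg with h | h
    · exact h1 h
    · have := K.mul_mem h2 (h1 h)
      rwa [mul_inv_cancel_left] at this

end ext

section rep

variable (ρ : G →* (V →ₗ[ℚ] V)) (M : Subgroup G) [hMn : M.Normal]

theorem stable (g : G) : ∀ v ∈ fixS ρ M, ρ g v ∈ fixS ρ M := by
  intro v hv m hm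
  have h1 : ρ m (ρ g v) = ρ (m * g) v := by rw [map_mul]; rfl
  have h2 : m * g = g * (g⁻¹ * m * g) := by group
  have h3 : g⁻¹ * m * g ∈ M := by
    have := hMn.conj_mem m hm g⁻¹
    rwa [inv_inv] at this
  rw [h1, h2, map_mul]
  change ρ g (ρ (g⁻¹ * m * g) v) = ρ g v
  rw [hv _ h3]

/-- the action on the vectors fixed by a normal subgroup -/
def sub : G →* (fixS ρ M →ₗ[ℚ] fixS ρ M) where
  toFun g := (ρ g).restrict (stable ρ M g)
  map_one' := by
    apply LinearMap.ext
    intro v
    apply Subtype.ext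
    rw [LinearMap.coe_restrict_apply, map_one]
    rfl
  map_mul' a b := by
    apply LinearMap.ext
    intro v
    apply Subtype.ext
    rw [LinearMap.coe_restrict_apply, map_mul]
    rfl

theorem sub_apply (g : G) (v : fixS ρ M) : ((sub ρ M g v : fixS ρ M) : V) = ρ g v := rfl

theorem sub_eq_one {m : G} (hm : m ∈ M) : sub ρ M m = 1 := by
  apply LinearMap.ext
  intro v
  apply Subtype.ext
  exact v.2 m hm

theorem sub_eq {g h : G} (hm : g⁻¹ * h ∈ M) : sub ρ M h = sub ρ M g := by
  have : h = g * (g⁻¹ * h) := by group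
  rw [this, map_mul, sub_eq_one ρ M hm, mul_one]

theorem sub_invol {z : G} (hz : z * z ∈ M) (v : fixS ρ M) : sub ρ M z (sub ρ M z v) = v := by
  have h := sub_eq_one ρ M hz
  rw [map_mul] at h
  exact congrArg (fun f : fixS ρ M →ₗ[ℚ] fixS ρ M => f v) h

theorem fix_ext {z : G} (hz : z * z ∈ M) :
    fixS ρ (ext M z) = (fx (sub ρ M z)).map (fixS ρ M).subtype := by
  ext v
  rw [Submodule.mem_map]
  constructor
  · intro hv
    have h1 : v ∈ fixS ρ M := fixS_anti (le_ext M z) hv
    refine ⟨⟨v, h1⟩, ?_, rfl⟩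
    rw [mem_fx]
    apply Subtype.ext
    exact hv z (self_mem_ext M z)
  · rintro ⟨w, hw, rfl⟩ g hg
    rw [mem_fx] at hw
    have hw2 : ρ z (w : V) = w := congrArg Subtype.val hw
    rcases mem_ext M hz hg with h | h
    · exact w.2 g h
    · have h2 : g = z * (z⁻¹ * g) := by group
      rw [h2, map_mul]
      change ρ z (ρ (z⁻¹ * g) (w : V)) = (w : V)
      rw [w.2 _ h, hw2]

variable [FiniteDimensional ℚ V]

theorem finrank_ext {z : G} (hz : z * z ∈ M) :
    finrank ℚ (fixS ρ (ext M z)) = finrank ℚ (fx (sub ρ M z)) := by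
  rw [fix_ext ρ M hz, Submodule.finrank_map_subtype_eq]

theorem det_sq (g : G) : LinearMap.det (sub ρ M (g ^ 2)) = 1 := by
  have h1 : (LinearMap.det (sub ρ M g)) ^ (orderOf g) = 1 := by
    rw [← map_pow, ← map_pow, pow_orderOf_eq_one, map_one, map_one]
  have h2 : |LinearMap.det (sub ρ M g)| = 1 := by
    have h3 : |LinearMap.det (sub ρ M g)| ^ (orderOf g) = 1 := by rw [← abs_pow, h1, abs_one]
    exact (pow_eq_one_iff_of_nonneg (abs_nonneg _) (orderOf_pos g).ne').1 h3
  rw [map_pow, map_pow, ← sq_abs, h2, one_pow]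

/-- the subgroup generated by the squares and `M` -/
def sq : Subgroup G := Subgroup.closure (Set.range fun g : G => g ^ 2) ⊔ M

theorem det_one {z : G} (hz : z ∈ sq M) : LinearMap.det (sub ρ M z) = 1 := by
  set D : G →* ℚ := (LinearMap.det : (fixS ρ M →ₗ[ℚ] fixS ρ M) →* ℚ).comp (sub ρ M) with hD
  have h : sq M ≤ D.ker := by
    unfold sq
    rw [sup_le_iff, Subgroup.closure_le]
    constructor
    · rintro _ ⟨g, rfl⟩
      exact det_sq ρ M g
    · intro m hm
      rw [MonoidHom.mem_ker, hD, MonoidHom.comp_apply, sub_eq_one ρ M hm, map_one]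
  exact h hz

end rep

theorem sq_mem_of_index {K : Subgroup G} (hK : K.index = 2) (g : G) : g ^ 2 ∈ K := by
  rw [pow_two]
  exact Subgroup.mul_self_mem_of_index_two hK g

theorem sq_le {M K : Subgroup G} (hK : K.index = 2) (hMK : M ≤ K) : sq M ≤ K := by
  unfold sq
  rw [sup_le_iff, Subgroup.closure_le]
  refine ⟨?_, hMK⟩
  rintro _ ⟨g, rfl⟩
  exact sq_mem_of_index hK g

end Pool.Agent.X156.PR
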